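import Pool.Agent.R804.Ext.Growth

/-!
# The powers of the curve around both fixed strands
-/

set_option autoImplicit false
set_option linter.unusedSimpArgs false
set_option linter.unusedVariables false

namespace Pool.Agent.R804.Ext

open Finsupp

section

variable {F : Type*} [Field F] {A T : F}

/-- the curve around both fixed strands -/
def zed : Word := [(2, .cup), (1, .neg), (0, .neg), (0, .neg), (1, .neg), (2, .cap)]

/-- the diagonal coefficient -/
def cD (A T : F) (a b : ℤ) : F :=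
  -(A⁻¹ ^ 2 * (A ^ (2 * a)) ^ 2) * T⁻¹ ^ 4 +
  ((A ^ 2 * (A ^ (2 * a)) ^ 2 * (A ^ (2 * b))⁻¹ ^ 2 - A⁻¹ ^ 2 * (A ^ (2 * b))⁻¹ ^ 2
    - A ^ 2 * (A ^ (2 * a)) ^ 2 + A⁻¹ ^ 2 * (A ^ (2 * a)) ^ 2 * (A ^ (2 * b))⁻¹ ^ 2)
    + -(A ^ 2 * (A ^ (2 * b))⁻¹ ^ 2) * T ^ 4)

/-- the first off-diagonal coefficient -/
def cU (A T : F) (a b : ℤ) : F :=
  (A⁻¹ ^ 2 * (A ^ (2 * b)) ^ 2 - A⁻¹ ^ 2) * T⁻¹ ^ 2 +
  (-A ^ 2 + A ^ 2 * (A ^ (2 * b))⁻¹ ^ 2) * T ^ 2

/-- the second off-diagonal coefficient -/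
def cW (A T : F) (a b : ℤ) : F :=
  (A⁻¹ ^ 6 * (A ^ (2 * a)) ^ 4 * (A ^ (2 * b))⁻¹ ^ 2
    - A⁻¹ ^ 6 * (A ^ (2 * a)) ^ 2 * (A ^ (2 * b))⁻¹ ^ 2) * T⁻¹ ^ 2 +
  (-(A⁻¹ ^ 2 * (A ^ (2 * a)) ^ 2 * (A ^ (2 * b))⁻¹ ^ 2)
    + A⁻¹ ^ 2 * (A ^ (2 * b))⁻¹ ^ 2) * T ^ 2

theorem op_zed (hA : A ≠ 0) (hT : T ≠ 0) (a b : ℤ) :
    op A T zed (e [.k a, .k b]) = cD A T a b • e [.k a, .k b] +
      cU A T a b • e [.k (a + 1), .k (b - 1)] + cW A T a b • e [.k (a - 1), .k (b + 1)] := by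
  have z3 : ∀ m : ℤ, A ^ (2 * m) ≠ 0 := fun m => zpow_ne_zero _ hA
  unfold zed cD cU cW
  simp only [op_cons, op_nil, lin_e, act, base, crossPos, crossNeg, capOp, cupOp,
    consL_e, beta, map_add, map_smul, smul_smul, smul_add, map_zero, smul_zero, add_zero, lam,
    zp1 hA, zp2 hA, sub_add_cancel, add_sub_cancel_right, zero_add]
  match_scalars <;> field_simp [z3] <;> ring

/-- a filtration of the field by the order in `T` -/
structure Ord (A T : F) (O : ℤ → AddSubgroup F) : Prop where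
  mono : ∀ {m n : ℤ}, m ≤ n → O n ≤ O m
  mul : ∀ {m n : ℤ} {x y : F}, x ∈ O m → y ∈ O n → x * y ∈ O (m + n)
  one : (1 : F) ∈ O 0
  hA : A ∈ O 0
  hA' : A⁻¹ ∈ O 0
  hT : T ∈ O 1
  hT' : T⁻¹ ∈ O (-1)

variable {O : ℤ → AddSubgroup F}

theorem Ord.le (h : Ord A T O) {m n : ℤ} {x : F} (hx : x ∈ O n) (hmn : m ≤ n) : x ∈ O m :=
  h.mono hmn hx

theorem Ord.pow (h : Ord A T O) {m : ℤ} {x : F} (hx : x ∈ O m) (n : ℕ) :
    x ^ n ∈ O (n * m) := by
  induction n with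
  | zero => simpa using h.one
  | succ n ih =>
    rw [pow_succ]
    have := h.mul ih hx
    convert this using 2
    push_cast
    ring

theorem Ord.pow0 (h : Ord A T O) {x : F} (hx : x ∈ O 0) (n : ℕ) : x ^ n ∈ O 0 := by
  simpa using h.pow hx n

theorem Ord.mul0 (h : Ord A T O) {x y : F} (hx : x ∈ O 0) (hy : y ∈ O 0) : x * y ∈ O 0 := by
  simpa using h.mul hx hy

theorem Ord.zpow (h : Ord A T O) (n : ℤ) : A ^ n ∈ O 0 := by
  obtain ⟨k, rfl | rfl⟩ := n.eq_nat_or_neg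
  · simpa using h.pow h.hA k
  · rw [zpow_neg, zpow_natCast, ← inv_pow]
    simpa using h.pow h.hA' k

theorem Ord.zpow' (h : Ord A T O) (n : ℤ) : (A ^ n)⁻¹ ∈ O 0 := by
  rw [← zpow_neg]; exact h.zpow (-n)

/-- the leading coefficient of the diagonal entry -/
def lead (A T : F) (a : ℤ) : F := -(A⁻¹ ^ 2 * (A ^ (2 * a)) ^ 2) * T⁻¹ ^ 4

theorem lead_mem (h : Ord A T O) (a : ℤ) : lead A T a ∈ O (-4) := by
  unfold lead
  refine h.le (h.mul ((O _).neg_mem (h.mul0 (h.pow0 h.hA' 2) (h.pow0 (h.zpow _) 2)))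
    (h.pow h.hT' 4)) ?_
  norm_num

theorem cD_mem (h : Ord A T O) (a b : ℤ) : cD A T a b - lead A T a ∈ O (-3) := by
  have e1 : cD A T a b - lead A T a = ((A ^ 2 * (A ^ (2 * a)) ^ 2 * (A ^ (2 * b))⁻¹ ^ 2
      - A⁻¹ ^ 2 * (A ^ (2 * b))⁻¹ ^ 2
      - A ^ 2 * (A ^ (2 * a)) ^ 2 + A⁻¹ ^ 2 * (A ^ (2 * a)) ^ 2 * (A ^ (2 * b))⁻¹ ^ 2)
      + -(A ^ 2 * (A ^ (2 * b))⁻¹ ^ 2) * T ^ 4) := by
    unfold cD lead; ring
  rw [e1]
  have hx := h.pow0 (h.zpow (2 * a)) 2
  have hy := h.pow0 (h.zpow' (2 * b)) 2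
  have h2 := h.pow0 h.hA 2
  have h2' := h.pow0 h.hA' 2
  have hT4 : T ^ 4 ∈ O 0 := h.le (h.pow h.hT 4) (by norm_num)
  refine h.le ((O 0).add_mem ((O 0).add_mem ((O 0).sub_mem ((O 0).sub_mem ?_ ?_) ?_) ?_) ?_)
    (by norm_num : (-3 : ℤ) ≤ 0)
  · exact h.mul0 (h.mul0 h2 hx) hy
  · exact h.mul0 h2' hy
  · exact h.mul0 h2 hx
  · exact h.mul0 (h.mul0 h2' hx) hy
  · exact h.mul0 ((O 0).neg_mem (h.mul0 h2 hy)) hT4

theorem cU_mem (h : Ord A T O) (a b : ℤ) : cU A T a b ∈ O (-3) := by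
  unfold cU
  have hx := h.pow0 (h.zpow (2 * a)) 2
  have hyy := h.pow0 (h.zpow (2 * b)) 2
  have hy := h.pow0 (h.zpow' (2 * b)) 2
  have h2 := h.pow0 h.hA 2
  have h2' := h.pow0 h.hA' 2
  have hT2 : T ^ 2 ∈ O (-3) := h.le (h.pow h.hT 2) (by norm_num)
  have hT2' : T⁻¹ ^ 2 ∈ O (-3) := h.le (h.pow h.hT' 2) (by norm_num)
  refine (O _).add_mem ?_ ?_
  · exact h.le (h.mul ((O 0).sub_mem (h.mul0 h2' hyy) h2') hT2') (by norm_num)
  · exact h.le (h.mul ((O 0).add_mem ((O 0).neg_mem h2) (h.mul0 h2 hy)) hT2) (by norm_num)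

theorem cW_mem (h : Ord A T O) (a b : ℤ) : cW A T a b ∈ O (-3) := by
  unfold cW
  have hx := h.pow0 (h.zpow (2 * a)) 2
  have hx4 := h.pow0 (h.zpow (2 * a)) 4
  have hy := h.pow0 (h.zpow' (2 * b)) 2
  have h2' := h.pow0 h.hA' 2
  have h6' := h.pow0 h.hA' 6
  have hT2 : T ^ 2 ∈ O (-3) := h.le (h.pow h.hT 2) (by norm_num)
  have hT2' : T⁻¹ ^ 2 ∈ O (-3) := h.le (h.pow h.hT' 2) (by norm_num)
  refine (O _).add_mem ?_ ?_
  · exact h.le (h.mul ((O 0).sub_mem (h.mul0 (h.mul0 h6' hx4) hy) (h.mul0 (h.mul0 h6' hx) hy))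
      hT2') (by norm_num)
  · exact h.le (h.mul ((O 0).add_mem ((O 0).neg_mem (h.mul0 (h.mul0 h2' hx) hy))
      (h.mul0 h2' hy)) hT2) (by norm_num)

theorem cD_mem' (h : Ord A T O) (a b : ℤ) : cD A T a b ∈ O (-4) := by
  have := (O (-4)).add_mem (h.le (cD_mem h a b) (by norm_num)) (lead_mem h a)
  simpa using this

/-- vectors supported on the states of two fixed strands, with coefficients of large order -/
def Err (O : ℤ → AddSubgroup F) (m : ℤ) : AddSubgroup (List St →₀ F) where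
  carrier := {v | ∀ x, v x ∈ O m ∧ (v x ≠ 0 → ∃ a b : ℤ, x = [.k a, .k b])}
  zero_mem' := fun x => ⟨by simp, by simp⟩
  add_mem' := by
    intro v w hv hw x
    refine ⟨(O m).add_mem (hv x).1 (hw x).1, fun h => ?_⟩
    by_cases h1 : v x = 0
    · apply (hw x).2
      intro h2
      exact h (by simp [h1, h2])
    · exact (hv x).2 h1
  neg_mem' := by
    intro v hv x
    refine ⟨by simpa using (hv x).1, fun h => (hv x).2 (by simpa using h)⟩

theorem Err_e {m : ℤ} {c : F} (hc : c ∈ O m) (a b : ℤ) :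
    c • e [.k a, .k b] ∈ Err O m := by
  intro y
  by_cases hy : y = [.k a, .k b]
  · subst hy
    refine ⟨by simpa [e] using hc, fun _ => ⟨a, b, rfl⟩⟩
  · have : (c • e [.k a, .k b] : List St →₀ F) y = 0 := by
      simp [e, single_apply, Ne.symm hy]
    exact ⟨by rw [this]; exact (O m).zero_mem, fun h => absurd this h⟩

theorem Err_mono (h : Ord A T O) {m n : ℤ} (hmn : m ≤ n) {v : List St →₀ F}
    (hv : v ∈ Err O n) : v ∈ Err O m := fun x => ⟨h.mono hmn (hv x).1, (hv x).2⟩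

theorem Err_zed (hA : A ≠ 0) (hT : T ≠ 0) (h : Ord A T O) {m : ℤ} {v : List St →₀ F}
    (hv : v ∈ Err O m) : op A T zed v ∈ Err O (m - 4) := by
  have h1 : v = ∑ x ∈ v.support, v x • e x := by
    conv_lhs => rw [← sum_single v]
    rw [Finsupp.sum]
    apply Finset.sum_congr rfl
    intro y _
    simp [e]
  rw [h1, map_sum]
  apply AddSubgroup.sum_mem
  intro x hx
  obtain ⟨a, b, rfl⟩ := (hv x).2 (by simpa using hx)
  have hc := (hv [.k a, .k b]).1
  generalize v [.k a, .k b] = c at hc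
  rw [map_smul, op_zed hA hT, smul_add, smul_add, smul_smul, smul_smul, smul_smul]
  refine AddSubgroup.add_mem _ (AddSubgroup.add_mem _ (Err_e ?_ _ _) (Err_e ?_ _ _))
    (Err_e ?_ _ _)
  · exact h.le (h.mul hc (cD_mem' h a b)) (by omega)
  · exact h.le (h.mul hc (cU_mem h a b)) (by omega)
  · exact h.le (h.mul hc (cW_mem h a b)) (by omega)

/-- the power of `zed` -/
def zpow (K : ℕ) : Word := (List.replicate K zed).flatten

theorem zpow_succ' (K : ℕ) : zpow (K + 1) = zed ++ zpow K := by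
  simp [zpow, List.replicate_succ]

theorem run_zed : run [true, true] zed = some [true, true] := rfl

theorem run_zpow (K : ℕ) : run [true, true] (zpow K) = some [true, true] := by
  induction K with
  | zero => rfl
  | succ K ih => rw [zpow_succ', runAppend_of run_zed, ih]

theorem Err_zpow (hA : A ≠ 0) (hT : T ≠ 0) (h : Ord A T O) (K : ℕ) {m : ℤ}
    {v : List St →₀ F} (hv : v ∈ Err O m) : op A T (zpow K) v ∈ Err O (m - 4 * K) := by
  induction K generalizing m v with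
  | zero => simpa [zpow] using hv
  | succ K ih =>
    rw [zpow_succ', op_append]
    have := ih (Err_zed hA hT h hv)
    convert this using 2
    push_cast
    ring

theorem op_zpow (hA : A ≠ 0) (hT : T ≠ 0) (h : Ord A T O) (K : ℕ) (a b : ℤ) :
    op A T (zpow K) (e [.k a, .k b]) - (lead A T a) ^ K • e [.k a, .k b] ∈
      Err O (-4 * K + 1) := by
  induction K with
  | zero => simp [zpow, AddSubgroup.zero_mem]
  | succ K ih =>
    rw [zpow_succ', op_append, op_zed hA hT]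
    have e1 : op A T (zpow K) (cD A T a b • e [.k a, .k b] +
        cU A T a b • e [.k (a + 1), .k (b - 1)] + cW A T a b • e [.k (a - 1), .k (b + 1)]) -
        (lead A T a) ^ (K + 1) • e [.k a, .k b] =
        op A T (zpow K) ((cD A T a b - lead A T a) • e [.k a, .k b] +
        cU A T a b • e [.k (a + 1), .k (b - 1)] + cW A T a b • e [.k (a - 1), .k (b + 1)]) +
        lead A T a • (op A T (zpow K) (e [.k a, .k b]) -
          (lead A T a) ^ K • e [.k a, .k b]) := by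
      simp only [map_add, map_sub, map_smul, smul_sub, smul_smul, pow_succ', sub_smul]
      abel
    rw [e1]
    apply AddSubgroup.add_mem
    · have := Err_zpow hA hT h K (m := -3)
        (AddSubgroup.add_mem _ (AddSubgroup.add_mem _ (Err_e (cD_mem h a b) a b)
          (Err_e (cU_mem h a b) (a + 1) (b - 1))) (Err_e (cW_mem h a b) (a - 1) (b + 1)))
      apply Err_mono h _ this
      push_cast
      omega
    · intro x
      obtain ⟨h1, h2⟩ := ih x
      constructor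
      · rw [Finsupp.smul_apply, smul_eq_mul]
        refine h.le (h.mul (lead_mem h a) h1) ?_
        push_cast
        omega
      · intro h3
        apply h2
        intro h4
        exact h3 (by rw [Finsupp.smul_apply, h4, smul_zero])

theorem coef_zpow (hA : A ≠ 0) (hT : T ≠ 0) (h : Ord A T O) (K : ℕ) (a b : ℤ) :
    op A T (zpow K) (e [.k a, .k b]) [.k a, .k b] - (lead A T a) ^ K ∈ O (-4 * K + 1) := by
  have := (op_zpow hA hT h K a b [.k a, .k b]).1
  simpa [e] using this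

/-- the number of the first strand -/
def fst (x : List St) : ℤ :=
  match x with
  | .k a :: _ => a
  | _ => 0

theorem mem_two {x : List St} {s : ℕ} (hx : x ∈ SF [true, true] (2 * (s : ℤ))) :
    0 ≤ fst x ∧ fst x ≤ s ∧ x = [.k (fst x), .k (s - fst x)] := by
  obtain ⟨h1, h2, h3⟩ := mem_SF.mp hx
  rcases x with _ | ⟨x, _ | ⟨y, _ | ⟨z, t⟩⟩⟩
  · simp at h1
  · simp at h1
  · rcases x with _ | a
    · simp [St.ty] at h1
    · rcases y with _ | b
      · simp [St.ty] at h1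
      · have ha : 0 ≤ a := h2 (.k a) (by simp)
        have hb : 0 ≤ b := h2 (.k b) (by simp)
        have hab : 2 * a + 2 * b = 2 * (s : ℤ) := by simpa [St.deg] using h3
        obtain rfl : b = s - a := by omega
        exact ⟨ha, by simp only [fst]; omega, rfl⟩
  · simp at h1

theorem mem_top (s : ℕ) : [St.k (s : ℤ), St.k 0] ∈ SF [true, true] (2 * (s : ℤ)) := by
  rw [mem_SF]
  refine ⟨rfl, ?_, by simp [St.deg]⟩
  intro t ht
  simp only [List.mem_cons, List.not_mem_nil, or_false] at ht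
  rcases ht with rfl | rfl <;> simp [St.ok]

theorem g_zpow (hA : A ≠ 0) (hT : T ≠ 0) (h : Ord A T O) (K s : ℕ) :
    g A T [true, true] (zpow K) (2 * s) -
      ∑ x ∈ SF [true, true] (2 * (s : ℤ)), (lead A T (fst x)) ^ K ∈ O (-4 * K + 1) := by
  unfold g
  rw [← Finset.sum_sub_distrib]
  apply AddSubgroup.sum_mem
  intro x hx
  obtain ⟨-, -, h3⟩ := mem_two hx
  rw [h3]
  exact coef_zpow hA hT h K _ _

end

end Pool.Agent.R804.Ext
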