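import Pool.Agent.R804.Ext.Growth
import Pool.Agent.R804.Ext.Zed

/-!
# The skein module is not finitely generated over the meridians, abstract form
-/

set_option autoImplicit false
set_option linter.unusedSimpArgs false
set_option linter.unusedVariables false

namespace Pool.Agent.R804.Ext

theorem toLink_eq (D : Diagram) : Finsupp.single (Diagram.toLink D) (1 : QA) =
    link D.row D.word := by
  rw [link, dif_pos ⟨D.closed, D.two⟩]

theorem single_eq (D : Diagram) (a : QA) : Finsupp.single (Diagram.toLink D) a =
    a • link D.row D.word := by
  rw [← toLink_eq, Finsupp.smul_single, smul_eq_mul, mul_one]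

section

variable {F : Type} [Field F] [Algebra QA F] {A T : F} {B : ℤ → AddSubgroup F}

/-- functions of slope at most `C` form a subspace -/
def slopeSub (good : Good A T B) (scal : ∀ a : QA, ∃ m : ℤ, algebraMap QA F a ∈ B m) (C : ℤ) :
    Submodule QA (ℤ → F) where
  carrier := {f | slope B C f}
  zero_mem' := slope_zero C
  add_mem' := fun hf hg => slope_add good hf hg
  smul_mem' := by
    intro a f hf
    obtain ⟨m, hm⟩ := scal a
    have h1 : a • f = fun d => algebraMap QA F a * f d := by
      funext d
      rw [smul_fun]
    change slope B C (a • f)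
    rw [h1]
    exact slope_mul good hf hm

theorem phi_addLoop (hA : A ≠ 0) (hT : T ≠ 0) (j : Fin 2) (x : FramedLink →₀ QA) :
    phi hA hT (addLoop j x) = fun d => lam A T * phi hA hT x d := by
  induction x using Finsupp.induction_linear with
  | zero => funext d; simp
  | add x y hx hy => funext d; rw [map_add, map_add, map_add, hx, hy]; simp [mul_add]
  | single l a =>
    obtain ⟨D, rfl⟩ : ∃ D : Diagram, D.toLink = l := Quot.exists_rep l
    have hj : (j : ℕ) < D.row.count true := by rw [D.two]; exact j.2
    rw [single_eq, map_smul, addLoop_link j D.closed D.two, map_smul, map_smul,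
      phi_link hA hT D.closed D.two, phi_link hA hT
        (by rw [runAppend_of (run_loop hj), D.closed]) D.two]
    funext d
    rw [smul_fun, g_loop hA hT hj, smul_fun]
    ring

theorem phi_addStrand (hA : A ≠ 0) (hT : T ≠ 0) (x : FramedLink →₀ QA) :
    phi hA hT (addStrand x) =
      fun d => phi hA hT x (d + 1) + phi hA hT x (d - 1) := by
  induction x using Finsupp.induction_linear with
  | zero => funext d; simp
  | add x y hx hy =>
    funext d; rw [map_add, map_add, map_add, hx, hy]; simp only [Pi.add_apply]; ring
  | single l a =>
    obtain ⟨D, rfl⟩ : ∃ D : Diagram, D.toLink = l := Quot.exists_rep l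
    rw [single_eq, map_smul, addStrand_link D.closed D.two, map_smul, map_smul,
      phi_link hA hT D.closed D.two, phi_link hA hT
        (by rw [runUp, D.closed]; rfl) (by simpa using D.two)]
    funext d
    rw [smul_fun, g_strand, smul_fun, smul_fun]
    ring

variable (hA : A ≠ 0) (hT : T ≠ 0) (hv : algebraMap QA F varA = A)
  (good : Good A T B) (scal : ∀ a : QA, ∃ m : ℤ, algebraMap QA F a ∈ B m)

theorem Phi_mk (x : FramedLink →₀ QA) :
    Phi hA hT hv (Submodule.Quotient.mk x) = phi hA hT x := rfl

include good scal in
theorem algebra_slope {C : ℤ} (hC : 0 ≤ C) {a : Module.End QA SkeinModule}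
    (ha : a ∈ meridianAlgebra) : ∀ x : SkeinModule, slope B C (Phi hA hT hv x) →
      slope B C (Phi hA hT hv (a x)) := by
  unfold meridianAlgebra at ha
  induction ha using Algebra.adjoin_induction with
  | mem a ha =>
    have hloop : ∀ (j : Fin 2) (x : SkeinModule), slope B C (Phi hA hT hv x) →
        slope B C (Phi hA hT hv (loopMeridian j x)) := by
      intro j x hx
      obtain ⟨y, rfl⟩ := Submodule.Quotient.mk_surjective _ x
      change slope B C (Phi hA hT hv (Submodule.Quotient.mk (addLoop j y)))
      rw [Phi_mk, phi_addLoop]
      exact slope_mul good hx (lam_mem good)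
    have haxis : ∀ (x : SkeinModule), slope B C (Phi hA hT hv x) →
        slope B C (Phi hA hT hv (axisMeridian x)) := by
      intro x hx
      obtain ⟨y, rfl⟩ := Submodule.Quotient.mk_surjective _ x
      change slope B C (Phi hA hT hv (Submodule.Quotient.mk (addStrand y)))
      rw [Phi_mk, phi_addStrand]
      exact slope_strand good hC hx
    rcases ha with rfl | rfl | rfl
    · exact hloop 0
    · exact hloop 1
    · exact haxis
  | algebraMap c =>
    intro x hx
    have h1 : Phi hA hT hv ((algebraMap QA (Module.End QA SkeinModule) c) x) =
        c • Phi hA hT hv x := by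
      rw [Module.algebraMap_end_apply, map_smul]
    rw [h1]
    exact (slopeSub good scal C).smul_mem c hx
  | add a b _ _ iha ihb =>
    intro x hx
    rw [LinearMap.add_apply, map_add]
    exact slope_add good (iha x hx) (ihb x hx)
  | mul a b _ _ iha ihb =>
    intro x hx
    exact iha _ (ihb x hx)

include good scal in
theorem exists_slope (x : SkeinModule) : ∃ C : ℕ, slope B C (Phi hA hT hv x) := by
  obtain ⟨y, rfl⟩ := Submodule.Quotient.mk_surjective _ x
  rw [Phi_mk]
  induction y using Finsupp.induction_linear with
  | zero => exact ⟨0, by rw [map_zero]; exact slope_zero _⟩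
  | add x y hx hy =>
    obtain ⟨C, hx⟩ := hx
    obtain ⟨C', hy⟩ := hy
    refine ⟨C + C', ?_⟩
    rw [map_add]
    exact slope_add good (slope_mono good (by push_cast; omega) hx)
      (slope_mono good (by push_cast; omega) hy)
  | single l a =>
    obtain ⟨D, rfl⟩ : ∃ D : Diagram, D.toLink = l := Quot.exists_rep l
    refine ⟨6 * D.word.length, ?_⟩
    rw [single_eq, map_smul]
    apply (slopeSub good scal _).smul_mem
    change slope B _ (phi hA hT (link D.row D.word))
    rw [phi_link hA hT D.closed D.two]
    have := g_slope good D.row D.word
    convert this using 1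
    push_cast
    ring

include hA hT hv good scal in
theorem not_finite_abs (hg : ∀ C : ℕ, ∃ K : ℕ, ¬ slope B C (g A T [true, true] (zpow K))) :
    ¬ Module.Finite meridianAlgebra SkeinModule := by
  intro hfin
  obtain ⟨s, hs⟩ := hfin.fg_top
  choose f hf using exists_slope hA hT hv good scal
  set C : ℕ := s.sup f with hC
  have htop : ∀ x : SkeinModule, slope B C (Phi hA hT hv x) := by
    intro x
    have hx : x ∈ Submodule.span meridianAlgebra (s : Set SkeinModule) := by
      rw [hs]; trivial
    induction hx using Submodule.span_induction with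
    | mem x hx =>
      exact slope_mono good (by exact_mod_cast Finset.le_sup (f := f) hx) (hf x)
    | zero => rw [map_zero]; exact slope_zero _
    | add x y _ _ hx hy => rw [map_add]; exact slope_add good hx hy
    | smul a x _ hx => exact algebra_slope hA hT hv good scal (by positivity) a.2 x hx
  obtain ⟨K, hK⟩ := hg C
  apply hK
  have h1 := htop (Submodule.Quotient.mk (link [true, true] (zpow K)))
  rw [Phi_mk, phi_link hA hT (run_zpow _) rfl] at h1
  exact h1

end

end Pool.Agent.R804.Ext
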