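import Pool.Agent.R804.Ext.Zed

/-!
# The concrete field
-/

set_option autoImplicit false
set_option linter.unusedSimpArgs false
set_option linter.unusedVariables false

namespace Pool.Agent.R804.Ext

/-- the degree of a rational function is at most `m` -/
def dle (x : QA) (m : ℤ) : Prop := x = 0 ∨ RatFunc.intDegree x ≤ m

theorem dle_zero (m : ℤ) : dle 0 m := Or.inl rfl

theorem dle_mono {x : QA} {m n : ℤ} (h : dle x m) (hmn : m ≤ n) : dle x n := by
  rcases h with h | h
  · exact Or.inl h
  · exact Or.inr (h.trans hmn)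

theorem dle_add {x y : QA} {m : ℤ} (hx : dle x m) (hy : dle y m) : dle (x + y) m := by
  rcases hx with rfl | hx
  · simpa using hy
  rcases hy with rfl | hy
  · rw [add_zero]; exact Or.inr hx
  by_cases hy0 : y = 0
  · subst hy0; rw [add_zero]; exact Or.inr hx
  by_cases hxy : x + y = 0
  · exact Or.inl hxy
  · exact Or.inr ((RatFunc.intDegree_add_le hy0 hxy).trans (max_le hx hy))

theorem dle_neg {x : QA} {m : ℤ} (hx : dle x m) : dle (-x) m := by
  rcases hx with rfl | hx
  · simpa using dle_zero m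
  · right; rwa [RatFunc.intDegree_neg]

theorem dle_mul {x y : QA} {m n : ℤ} (hx : dle x m) (hy : dle y n) : dle (x * y) (m + n) := by
  rcases eq_or_ne x 0 with rfl | hx0
  · simpa using dle_zero _
  rcases eq_or_ne y 0 with rfl | hy0
  · simpa using dle_zero _
  rcases hx with hx | hx
  · exact absurd hx hx0
  rcases hy with hy | hy
  · exact absurd hy hy0
  right
  rw [RatFunc.intDegree_mul hx0 hy0]
  omega

theorem dle_sum {ι : Type*} (s : Finset ι) (f : ι → QA) {m : ℤ} (h : ∀ i ∈ s, dle (f i) m) :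
    dle (∑ i ∈ s, f i) m := by
  classical
  induction s using Finset.induction_on with
  | empty => simpa using dle_zero m
  | insert a s ha ih =>
    rw [Finset.sum_insert ha]
    exact dle_add (h a (Finset.mem_insert_self a s))
      (ih fun i hi => h i (Finset.mem_insert_of_mem hi))

theorem dle_one : dle 1 0 := Or.inr (by simp)

theorem dle_varA : dle varA 1 := Or.inr (by simp [varA])

theorem varA_ne : varA ≠ 0 := RatFunc.X_ne_zero

theorem intDegree_inv {x : QA} (hx : x ≠ 0) : RatFunc.intDegree x⁻¹ = -RatFunc.intDegree x := by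
  have h := RatFunc.intDegree_mul hx (inv_ne_zero hx)
  rw [mul_inv_cancel₀ hx, RatFunc.intDegree_one] at h
  omega

theorem intDegree_pow {x : QA} (hx : x ≠ 0) (n : ℕ) :
    RatFunc.intDegree (x ^ n) = n * RatFunc.intDegree x := by
  induction n with
  | zero => simp
  | succ n ih =>
    rw [pow_succ, RatFunc.intDegree_mul (pow_ne_zero n hx) hx, ih]
    push_cast
    ring

theorem intDegree_zpow (n : ℤ) : RatFunc.intDegree (varA ^ n) = n := by
  obtain ⟨k, rfl | rfl⟩ := n.eq_nat_or_neg
  · rw [zpow_natCast, intDegree_pow varA_ne]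
    simp [varA]
  · rw [zpow_neg, zpow_natCast, intDegree_inv (pow_ne_zero k varA_ne), intDegree_pow varA_ne]
    simp [varA]

/-- the field of Laurent series in `T` over `ℚ(A)` -/
abbrev LF : Type := LaurentSeries QA

/-- the image of `A` -/
noncomputable def cA : LF := HahnSeries.C varA

/-- the variable `T` -/
noncomputable def cT : LF := HahnSeries.single (1 : ℤ) (1 : QA)

theorem algebraMap_eq (a : QA) : algebraMap QA LF a = HahnSeries.C a := by
  rw [HahnSeries.algebraMap_apply', PowerSeries.algebraMap_apply, HahnSeries.ofPowerSeries_C]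
  rfl

theorem algebraMap_varA : algebraMap QA LF varA = cA := algebraMap_eq varA

theorem cA_ne : cA ≠ 0 := by
  unfold cA
  rw [Ne, map_eq_zero]
  exact varA_ne

theorem cT_ne : cT ≠ 0 := by
  unfold cT
  rw [Ne, HahnSeries.single_eq_zero_iff]
  exact one_ne_zero

theorem cA_inv : cA⁻¹ = HahnSeries.C varA⁻¹ := by
  unfold cA
  rw [map_inv₀]

theorem cT_inv : cT⁻¹ = HahnSeries.single (-1 : ℤ) (1 : QA) := by
  apply inv_eq_of_mul_eq_one_right
  unfold cT
  rw [HahnSeries.single_mul_single]
  simp

/-- Laurent series whose coefficients have degree at most `m` -/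
noncomputable def BB (m : ℤ) : AddSubgroup LF where
  carrier := {f | ∀ n, dle (f.coeff n) m}
  zero_mem' := fun n => by simpa using dle_zero m
  add_mem' := fun hf hg n => by
    rw [HahnSeries.coeff_add]
    exact dle_add (hf n) (hg n)
  neg_mem' := fun hf n => by
    rw [HahnSeries.coeff_neg]
    exact dle_neg (hf n)

/-- Laurent series of order at least `m` -/
noncomputable def OO (m : ℤ) : AddSubgroup LF where
  carrier := {f | ∀ n, n < m → f.coeff n = 0}
  zero_mem' := fun n _ => by simp
  add_mem' := fun hf hg n hn => by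
    rw [HahnSeries.coeff_add, hf n hn, hg n hn, add_zero]
  neg_mem' := fun hf n hn => by
    rw [HahnSeries.coeff_neg, hf n hn, neg_zero]

theorem BB_single {a : QA} {m : ℤ} (ha : dle a m) (n : ℤ) :
    (HahnSeries.single n a : LF) ∈ BB m := by
  intro k
  by_cases hk : k = n
  · subst hk
    rw [HahnSeries.coeff_single_same]
    exact ha
  · rw [HahnSeries.coeff_single_of_ne hk]
    exact dle_zero m

theorem BB_C {a : QA} {m : ℤ} (ha : dle a m) : (HahnSeries.C a : LF) ∈ BB m :=
  BB_single ha 0

theorem OO_single (a : QA) {m n : ℤ} (h : m ≤ n) : (HahnSeries.single n a : LF) ∈ OO m := by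
  intro k hk
  rw [HahnSeries.coeff_single_of_ne (by omega)]

theorem good : Good cA cT BB where
  mono := fun h f hf n => dle_mono (hf n) h
  mul := by
    intro m n x y hx hy k
    rw [HahnSeries.coeff_mul]
    exact dle_sum _ _ fun i _ => dle_mul (hx _) (hy _)
  one := BB_single dle_one 0
  hA := BB_C dle_varA
  hA' := by
    rw [cA_inv]
    apply BB_C
    right
    rw [intDegree_inv varA_ne]
    simp [varA]
  hT := BB_single dle_one 1
  hT' := by
    rw [cT_inv]
    exact BB_single dle_one (-1)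

theorem good_ord : Ord cA cT OO where
  mono := fun h f hf n hn => hf n (lt_of_lt_of_le hn h)
  mul := by
    intro m n x y hx hy k hk
    rw [HahnSeries.coeff_mul]
    apply Finset.sum_eq_zero
    intro i hi
    have h1 : i.1 + i.2 = k := (Finset.mem_antidiagonal.mp hi).2.2
    rcases lt_or_ge i.1 m with h2 | h2
    · rw [hx _ h2, zero_mul]
    · rw [hy _ (by omega), mul_zero]
  one := OO_single 1 le_rfl
  hA := OO_single _ le_rfl
  hA' := by
    rw [cA_inv]
    exact OO_single _ le_rfl
  hT := OO_single 1 le_rfl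
  hT' := by
    rw [cT_inv]
    exact OO_single 1 le_rfl

theorem cT_inv_pow (n : ℕ) : cT⁻¹ ^ n = HahnSeries.single (-n : ℤ) (1 : QA) := by
  rw [cT_inv]
  induction n with
  | zero => simp
  | succ n ih =>
    rw [pow_succ, ih, HahnSeries.single_mul_single, mul_one,
      show (-(n : ℤ) + -1) = -((n + 1 : ℕ) : ℤ) by push_cast; ring]

theorem lead_pow (K : ℕ) (a : ℤ) : lead cA cT a ^ K =
    HahnSeries.single (-4 * K : ℤ) ((-(varA ^ (4 * a - 2))) ^ K) := by
  have h1 : lead cA cT a = HahnSeries.C (-(varA ^ (4 * a - 2))) * cT⁻¹ ^ 4 := by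
    unfold lead
    congr 1
    rw [map_neg, map_zpow₀]
    congr 1
    change _ = cA ^ (4 * a - 2)
    rw [zpow_sub₀ cA_ne, show (4 * a) = 2 * a + 2 * a by ring, zpow_add₀ cA_ne]
    field_simp
  rw [h1, mul_pow, ← map_pow, ← pow_mul, cT_inv_pow]
  change HahnSeries.single (0 : ℤ) _ * _ = _
  rw [HahnSeries.single_mul_single, mul_one,
    show (0 + -((4 * K : ℕ) : ℤ)) = -4 * K by push_cast; ring]

theorem coeff_lead_pow (K : ℕ) (a : ℤ) : (lead cA cT a ^ K).coeff (-4 * K : ℤ) =
    (-(varA ^ (4 * a - 2))) ^ K := by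
  rw [lead_pow, HahnSeries.coeff_single_same]

theorem intDegree_lead (K : ℕ) (a : ℤ) :
    RatFunc.intDegree ((-(varA ^ (4 * a - 2))) ^ K) = K * (4 * a - 2) := by
  rw [intDegree_pow (neg_ne_zero.mpr (zpow_ne_zero _ varA_ne)), RatFunc.intDegree_neg,
    intDegree_zpow]

/-- The invariant of a large power of `zed` grows fast. -/
theorem not_slope {C : ℤ} (hC : 0 ≤ C) {K : ℕ} (hK : (K : ℤ) = C + 1) :
    ¬ slope BB C (g cA cT [true, true] (zpow K)) := by
  rintro ⟨c, hc⟩
  obtain ⟨s, hs⟩ : ∃ s : ℕ, (s : ℤ) = |c| + 1 :=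
    ⟨(|c| + 1).toNat, Int.toNat_of_nonneg (by positivity)⟩
  have h1 := hc (2 * s)
  have h2 := g_zpow cA_ne cT_ne good_ord K s (-4 * K : ℤ) (by omega)
  rw [HahnSeries.coeff_sub, HahnSeries.coeff_sum, sub_eq_zero] at h2
  have h3 := h1 (-4 * K : ℤ)
  rw [h2] at h3
  simp only [coeff_lead_pow] at h3
  set x0 : List St := [St.k (s : ℤ), St.k 0] with hx0
  have h4 := mem_top s
  rw [← Finset.add_sum_erase _ _ h4] at h3
  have h5 : dle (∑ x ∈ (SF [true, true] (2 * (s : ℤ))).erase x0,
      (-(varA ^ (4 * fst x - 2))) ^ K) (K * (4 * s - 6)) := by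
    apply dle_sum
    intro x hx
    obtain ⟨hne, hx⟩ := Finset.mem_erase.mp hx
    obtain ⟨h6, h7, h8⟩ := mem_two hx
    right
    rw [intDegree_lead]
    have : fst x ≠ s := by
      intro h9
      apply hne
      rw [h8, h9, hx0]
      simp
    have : fst x ≤ s - 1 := by omega
    nlinarith [K.cast_nonneg (α := ℤ)]
  set m : ℤ := K * (4 * s - 2) - 1 with hm
  have hbig : C * |2 * (s : ℤ)| + c ≤ m := by
    have : |2 * (s : ℤ)| = 2 * s := abs_of_nonneg (by positivity)
    rw [this, hm, hK, hs]
    have h10 := le_abs_self c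
    nlinarith [abs_nonneg c, mul_nonneg hC (abs_nonneg c)]
  have hbig2 : (K : ℤ) * (4 * s - 6) ≤ m := by
    rw [hm]
    have : (1 : ℤ) ≤ K := by omega
    nlinarith
  have h6 := dle_add (dle_mono h3 hbig) (dle_neg (dle_mono h5 hbig2))
  rw [add_neg_cancel_right] at h6
  have h7 : fst x0 = s := rfl
  rcases h6 with h6 | h6
  · exact pow_ne_zero K (neg_ne_zero.mpr (zpow_ne_zero _ varA_ne)) h6
  · rw [intDegree_lead] at h6
    have : (K : ℤ) * (4 * s - 2) ≤ m := h6
    omega

end Pool.Agent.R804.Ext
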