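import Mathlib

/-!
# The Kauffman bracket skein module of the exterior of the connected sum of two Hopf links
-/

set_option autoImplicit false

namespace Pool.Agent.R804.Ext

/-- The field `ℚ(A)` of rational functions. -/
abbrev QA : Type := RatFunc ℚ

/-- The variable `A`. -/
noncomputable def varA : QA := RatFunc.X

/-- The elementary pieces of a sliced diagram, read from bottom to top. `pos` is the crossing of
two neighbouring strands in which the strand from bottom left to top right is the over strand,
`neg` is the other crossing, `cup` is a local minimum and `cap` a local maximum. -/
inductive Piece where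
  | cup
  | cap
  | pos
  | neg
  deriving DecidableEq

/-- number of strands entering a piece from below -/
def Piece.low : Piece → ℕ
  | .cup => 0
  | _ => 2

/-- number of strands leaving a piece at the top -/
def Piece.high : Piece → ℕ
  | .cap => 0
  | _ => 2

/-- A horizontal slice: the types of the strands from left to right. `true` is one of the two fixed
strands `L_1`, `L_2`, `false` is a strand of the framed link `J` in the exterior. -/
abbrev Row := List Bool

/-- The row above the piece `p`, placed at the left end of a row, and `none` if the piece does not
fit. Local minima and maxima belong to `J`; a crossing involves at least one strand of `J`. -/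
def first : Piece → Row → Option Row
  | .cup, r => some (false :: false :: r)
  | .cap, false :: false :: r => some r
  | .cap, _ => none
  | _, true :: true :: _ => none
  | _, x :: y :: r => some (y :: x :: r)
  | _, _ => none

/-- The row above the piece `p`, placed to the right of the first `k` strands of a row. -/
def next : ℕ → Piece → Row → Option Row
  | 0, p, r => first p r
  | k + 1, p, x :: r => (next k p r).map fun r' => x :: r'
  | _ + 1, _, [] => none

/-- Words of pieces with their positions, read from bottom to top. -/
abbrev Word := List (ℕ × Piece)

/-- The row above the word `w`, when the row `r` enters from below. -/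
def run : Row → Word → Option Row
  | r, [] => some r
  | r, (k, p) :: w => (next k p r).bind fun r' => run r' w

/-- move a word one strand to the right -/
def up (w : Word) : Word := w.map fun l => (l.1 + 1, l.2)

/-- The local moves: isotopy of framed tangle diagrams (blackboard framing) in which the fixed
strands `L_1`, `L_2` stay vertical and do not cross each other. The constructor `right` allows to
apply a move further to the right. -/
inductive Move : Word → Word → Prop
  | exchange (p q : Piece) (l : ℕ) : Move [(0, p), (l + p.high, q)] [(l + p.low, q), (0, p)]
  | zigzagR : Move [(0, .cup), (1, .cap)] []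
  | zigzagL : Move [(1, .cup), (0, .cap)] []
  | cupSlidePos : Move [(0, .cup), (1, .pos)] [(1, .cup), (0, .neg)]
  | cupSlideNeg : Move [(0, .cup), (1, .neg)] [(1, .cup), (0, .pos)]
  | capSlidePos : Move [(1, .pos), (0, .cap)] [(0, .neg), (1, .cap)]
  | capSlideNeg : Move [(1, .neg), (0, .cap)] [(0, .pos), (1, .cap)]
  | curlPos : Move [(1, .cup), (0, .pos), (1, .cap)] [(0, .cup), (1, .pos), (0, .cap)]
  | curlNeg : Move [(1, .cup), (0, .neg), (1, .cap)] [(0, .cup), (1, .neg), (0, .cap)]
  | r2PosNeg : Move [(0, .pos), (0, .neg)] []
  | r2NegPos : Move [(0, .neg), (0, .pos)] []
  | r3 : Move [(0, .pos), (1, .pos), (0, .pos)] [(1, .pos), (0, .pos), (1, .pos)]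
  | right (X Y : Word) : Move X Y → Move (up X) (up Y)

/-- Diagrams in the annulus of `L_1 ∪ L_2 ∪ J`, cut open along a radial arc: the row of the strands
at the arc and a word `word` which leads from this row to itself. The row contains two fixed
strands. -/
structure Diagram where
  row : Row
  word : Word
  closed : run row word = some row
  two : row.count true = 2

/-- Two diagrams are related by a local move inside the word or by a rotation of the annulus. -/
def Step (D E : Diagram) : Prop :=
  (D.row = E.row ∧ ∃ U V X Y : Word, Move X Y ∧ D.word = U ++ X ++ V ∧ E.word = U ++ Y ++ V) ∨
  (∃ u v : Word, D.word = u ++ v ∧ E.word = v ++ u ∧ run D.row u = some E.row)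

/-- Isotopy classes of framed unoriented links in the exterior. -/
def FramedLink : Type := Quot Step

/-- the isotopy class of the framed link with a given diagram -/
def Diagram.toLink (D : Diagram) : FramedLink := Quot.mk Step D

open Classical in
/-- The class of the diagram with the row `r` and the word `w`, as a basis element of the free
module on the framed links (zero if this is not a diagram). -/
noncomputable def link (r : Row) (w : Word) : FramedLink →₀ QA :=
  if h : run r w = some r ∧ r.count true = 2 then
    Finsupp.single (Diagram.toLink ⟨r, w, h.1, h.2⟩) 1 else 0

/-- The Kauffman bracket skein relations: a crossing of two strands of `J` is replaced by its two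
smoothings, and a trivial circle is replaced by the factor `-A^2 - A^{-2}`. -/
inductive Relation : (FramedLink →₀ QA) → Prop
  | pos (r : Row) (U V : Word) (k : ℕ) (h : run r (U ++ [(k, .cap), (k, .cup)] ++ V) = some r) :
      Relation (link r (U ++ [(k, .pos)] ++ V) - (varA • link r (U ++ V)
        + varA⁻¹ • link r (U ++ [(k, .cap), (k, .cup)] ++ V)))
  | neg (r : Row) (U V : Word) (k : ℕ) (h : run r (U ++ [(k, .cap), (k, .cup)] ++ V) = some r) :
      Relation (link r (U ++ [(k, .neg)] ++ V) - (varA⁻¹ • link r (U ++ V)
        + varA • link r (U ++ [(k, .cap), (k, .cup)] ++ V)))
  | circle (r : Row) (U V : Word) (k : ℕ) (h : run r (U ++ [(k, .cup), (k, .cap)] ++ V) = some r) :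
      Relation (link r (U ++ [(k, .cup), (k, .cap)] ++ V)
        - (-varA ^ 2 - varA⁻¹ ^ 2) • link r (U ++ V))

/-- The submodule generated by the skein relations. -/
noncomputable def relations : Submodule QA (FramedLink →₀ QA) :=
  Submodule.span QA {x | Relation x}

/-- The Kauffman bracket skein module of the exterior over `ℚ(A)`. -/
def SkeinModule : Type := (FramedLink →₀ QA) ⧸ relations

noncomputable instance : AddCommGroup SkeinModule :=
  inferInstanceAs (AddCommGroup ((FramedLink →₀ QA) ⧸ relations))

noncomputable instance : Module QA SkeinModule :=
  inferInstanceAs (Module QA ((FramedLink →₀ QA) ⧸ relations))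

end Pool.Agent.R804.Ext
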