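import Pool.Agent.R804.Ext.Conc
import Pool.Agent.R804.Ext.Abs

/-!
# The skein module is not finitely generated over the meridians
-/

set_option autoImplicit false

namespace Pool.Agent.R804.Ext

theorem not_finite : ¬ Module.Finite meridianAlgebra SkeinModule := by
  apply not_finite_abs cA_ne cT_ne algebraMap_varA good
  · intro a
    exact ⟨RatFunc.intDegree a, by rw [algebraMap_eq]; exact BB_C (Or.inr le_rfl)⟩
  · intro C
    exact ⟨C + 1, not_slope (by positivity) (by push_cast; ring)⟩

end Pool.Agent.R804.Ext
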