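import Pool.Agent.R804.Ext.Trace

set_option autoImplicit false
set_option linter.unusedSimpArgs false
set_option linter.unusedVariables false

namespace Pool.Agent.R804.Ext

open Finsupp

section

variable {F : Type*} [Field F] {A T : F}

theorem act_mem {p : Piece} {k : ℕ} {r r' : Row} (h : next k p r = some r') {d : ℤ} {x : List St}
    (hx : x ∈ S r d) : act A T p k x ∈ V F r' d := by
  induction k generalizing r r' d x with
  | zero => exact base_mem h hx
  | succ k ih =>
    obtain ⟨h1, h2, h3⟩ := hx
    rcases x with _ | ⟨s, x⟩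
    · subst h1
      simp [next] at h
    · subst h1
      simp only [List.map_cons, next, Option.map_eq_some_iff] at h
      obtain ⟨r'', h, rfl⟩ := h
      have hs : s.ok := h2 s List.mem_cons_self
      have hx : x ∈ S (x.map St.ty) (d - s.deg) :=
        ⟨rfl, fun t ht => h2 t (List.mem_cons_of_mem _ ht), by
          simp only [List.map_cons, List.sum_cons] at h3; omega⟩
      exact V_cons hs (ih h hx)

theorem lin_mem {p : Piece} {k : ℕ} {r r' : Row} (h : next k p r = some r') {d : ℤ}
    {v : List St →₀ F} (hv : v ∈ V F r d) : lin A T k p v ∈ V F r' d := by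
  rw [expand hv, map_sum]
  apply Submodule.sum_mem
  intro y hy
  rw [map_smul, lin_e]
  exact Submodule.smul_mem _ _ (act_mem h (mem_SF.mp hy))

theorem op_mem {w : Word} {r r' : Row} (h : run r w = some r') {d : ℤ}
    {v : List St →₀ F} (hv : v ∈ V F r d) : op A T w v ∈ V F r' d := by
  induction w generalizing r v with
  | nil =>
    obtain rfl : r = r' := by simpa [run] using h
    exact hv
  | cons l w ih =>
    obtain ⟨k, p⟩ := l
    simp only [run, Option.bind_eq_some_iff] at h
    obtain ⟨r'', h1, h2⟩ := h
    exact ih h2 (lin_mem h1 hv)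

theorem run_append {r : Row} {u w : Word} :
    run r (u ++ w) = (run r u).bind fun r' => run r' w := by
  induction u generalizing r with
  | nil => rfl
  | cons l u ih =>
    obtain ⟨k, p⟩ := l
    simp only [List.cons_append, run]
    cases next k p r with
    | none => rfl
    | some r' => exact ih

theorem run_append_some {r r' : Row} {u w : Word} (h : run r (u ++ w) = some r') :
    ∃ r'', run r u = some r'' ∧ run r'' w = some r' := by
  rw [run_append, Option.bind_eq_some_iff] at h
  exact h

/-- The trace of the operator of a word on the admissible states of degree `d`. -/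
noncomputable def g (A T : F) (r : Row) (w : Word) (d : ℤ) : F :=
  ∑ x ∈ SF r d, op A T w (e x) x

/-- linear functional -/
theorem apply_expand {r r' : Row} {d : ℤ} {v : List St →₀ F} (h : v ∈ V F r d)
    (w : Word) (x : List St) : op A T w v x = ∑ y ∈ SF r d, v y * op A T w (e y) x := by
  conv_lhs => rw [expand h, map_sum, Finsupp.finset_sum_apply]
  simp

theorem g_rotate {r r' : Row} {u v : Word} (hu : run r u = some r') (hv : run r' v = some r)
    (d : ℤ) : g A T r (u ++ v) d = g A T r' (v ++ u) d := by
  unfold g
  have h1 : ∀ x ∈ SF r d, op A T (u ++ v) (e x) x =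
      ∑ y ∈ SF r' d, op A T u (e x) y * op A T v (e y) x := by
    intro x hx
    rw [op_append]
    exact apply_expand (r' := r') (op_mem hu (e_mem (mem_SF.mp hx))) v x
  have h2 : ∀ y ∈ SF r' d, op A T (v ++ u) (e y) y =
      ∑ x ∈ SF r d, op A T v (e y) x * op A T u (e x) y := by
    intro y hy
    rw [op_append]
    exact apply_expand (r' := r') (op_mem hv (e_mem (mem_SF.mp hy))) u y
  rw [Finset.sum_congr rfl h1, Finset.sum_congr rfl h2, Finset.sum_comm]
  apply Finset.sum_congr rfl
  intro y _
  apply Finset.sum_congr rfl
  intro x _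
  rw [mul_comm]

/-- replacing a part of a word by a linear combination of words with the same operators -/
theorem g_replace {ι : Type*} (s : Finset ι) (c : ι → F) (Y : ι → Word) {r r1 r2 r3 : Row}
    {U X W : Word} (hU : run r U = some r1) (h : ∀ x : List St, x.map St.ty = r1 →
      op A T X (e x) = ∑ i ∈ s, c i • op A T (Y i) (e x)) (d : ℤ) :
    g A T r (U ++ X ++ W) d = ∑ i ∈ s, c i * g A T r (U ++ Y i ++ W) d := by
  unfold g
  simp only [Finset.mul_sum]
  rw [Finset.sum_comm]
  apply Finset.sum_congr rfl
  intro x hx
  have hv : op A T U (e x) ∈ V F r1 d := op_mem hU (e_mem (mem_SF.mp hx))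
  have hX : op A T X (op A T U (e x)) = ∑ i ∈ s, c i • op A T (Y i) (op A T U (e x)) := by
    generalize op A T U (e x) = v at hv
    rw [expand hv]
    simp only [map_sum, map_smul, Finset.smul_sum]
    rw [Finset.sum_comm]
    apply Finset.sum_congr rfl
    intro y hy
    rw [h y (mem_SF.mp hy).1, Finset.smul_sum]
    apply Finset.sum_congr rfl
    intro i _
    rw [smul_comm]
  simp only [op_append]
  rw [hX, map_sum, Finsupp.finset_sum_apply]
  simp

theorem g_same {r r1 : Row} {U X Y W : Word} (hU : run r U = some r1) (h : Same A T r1 X Y)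
    (d : ℤ) : g A T r (U ++ X ++ W) d = g A T r (U ++ Y ++ W) d := by
  have := g_replace (A := A) (T := T) (Finset.univ : Finset Unit) (fun _ => 1) (fun _ => Y)
    (r := r) (r1 := r1) (r2 := r1) (r3 := r1) (U := U) (X := X) (W := W) hU
    (by intro x hx; simpa using h x hx) d
  simpa using this

/-- The invariant of diagrams. -/
noncomputable def gD (A T : F) (D : Diagram) : ℤ → F := g A T D.row D.word

theorem gD_step (hA : A ≠ 0) (hT : T ≠ 0) {D E : Diagram} (h : Step D E) :
    gD A T D = gD A T E := by
  funext d
  unfold gD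
  rcases h with ⟨hr, U, V, X, Y, hm, h1, h2⟩ | ⟨u, v, h1, h2, h3⟩
  · rw [← hr, h1, h2]
    have hc := D.closed
    rw [h1] at hc
    obtain ⟨r2, hc, -⟩ := run_append_some hc
    obtain ⟨r1, hU, hX⟩ := run_append_some hc
    exact g_same hU (same_of_move hA hT hm hX) d
  · rw [h1, h2]
    have hc := D.closed
    rw [h1] at hc
    obtain ⟨r1, hu, hv⟩ := run_append_some hc
    rw [h3] at hu
    obtain rfl : E.row = r1 := by simpa using hu
    exact g_rotate h3 hv d

end

end Pool.Agent.R804.Ext
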