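import Pool.Agent.R804.Ext.Phi

/-!
# Growth of the invariant
-/

set_option autoImplicit false
set_option linter.unusedSimpArgs false
set_option linter.unusedVariables false

namespace Pool.Agent.R804.Ext

open Finsupp

section

variable {F : Type*} [Field F]

/-- a filtration of the field by the degree in `A` -/
structure Good (A T : F) (B : ℤ → AddSubgroup F) : Prop where
  mono : ∀ {m n : ℤ}, m ≤ n → B m ≤ B n
  mul : ∀ {m n : ℤ} {x y : F}, x ∈ B m → y ∈ B n → x * y ∈ B (m + n)
  one : (1 : F) ∈ B 0
  hA : A ∈ B 1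
  hA' : A⁻¹ ∈ B (-1)
  hT : T ∈ B 0
  hT' : T⁻¹ ∈ B 0

variable {A T : F} {B : ℤ → AddSubgroup F}

theorem Good.le (h : Good A T B) {m n : ℤ} {x : F} (hx : x ∈ B m) (hmn : m ≤ n) : x ∈ B n :=
  h.mono hmn hx

theorem Good.pow (h : Good A T B) {m : ℤ} {x : F} (hx : x ∈ B m) (n : ℕ) :
    x ^ n ∈ B (n * m) := by
  induction n with
  | zero => simpa using h.one
  | succ n ih =>
    rw [pow_succ]
    have := h.mul ih hx
    convert this using 2
    push_cast
    ring

theorem Good.zpow (h : Good A T B) (n : ℤ) : A ^ n ∈ B n := by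
  obtain ⟨k, rfl | rfl⟩ := n.eq_nat_or_neg
  · have := h.pow h.hA k
    simpa using this
  · have := h.pow h.hA' k
    rw [zpow_neg, zpow_natCast, ← inv_pow]
    simpa using this

theorem Good.zpow' (h : Good A T B) (n : ℤ) : (A ^ n)⁻¹ ∈ B (-n) := by
  rw [← zpow_neg]; exact h.zpow (-n)

/-- all fixed strands have a small state -/
def sm (N : ℤ) (x : List St) : Prop := ∀ n : ℤ, St.k n ∈ x → |n| ≤ N

theorem sm.mono {N M : ℤ} (h : N ≤ M) {x : List St} (hx : sm N x) : sm M x :=
  fun n hn => (hx n hn).trans h

/-- vectors with small states and small coefficients -/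
def W (B : ℤ → AddSubgroup F) (N m : ℤ) : AddSubgroup (List St →₀ F) where
  carrier := {v | ∀ x, v x ∈ B m ∧ (v x ≠ 0 → sm N x)}
  zero_mem' := fun x => ⟨by simp, by simp⟩
  add_mem' := by
    intro v w hv hw x
    refine ⟨(B m).add_mem (hv x).1 (hw x).1, fun h => ?_⟩
    by_cases h1 : v x = 0
    · apply (hw x).2
      intro h2
      exact h (by simp [h1, h2])
    · exact (hv x).2 h1
  neg_mem' := by
    intro v hv x
    refine ⟨by simpa using (hv x).1, fun h => (hv x).2 (by simpa using h)⟩

theorem W_e (h : Good A T B) {N m : ℤ} {c : F} {x : List St} (hc : c ∈ B m) (hx : sm N x) :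
    c • e x ∈ W B N m := by
  intro y
  by_cases hy : y = x
  · subst hy
    refine ⟨by simpa [e] using hc, fun _ => hx⟩
  · have : (c • e x : List St →₀ F) y = 0 := by
      simp [e, single_apply, Ne.symm hy]
    exact ⟨by rw [this]; exact (B m).zero_mem, fun h => absurd this h⟩

theorem W_mono (h : Good A T B) {N N' m m' : ℤ} (h1 : N ≤ N') (h2 : m ≤ m')
    {v : List St →₀ F} (hv : v ∈ W B N m) : v ∈ W B N' m' := fun x =>
  ⟨h.mono h2 (hv x).1, fun h0 => ((hv x).2 h0).mono h1⟩

theorem W_smul (h : Good A T B) {N m m' : ℤ} {v : List St →₀ F} (hv : v ∈ W B N m) {c : F}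
    (hc : c ∈ B m') : c • v ∈ W B N (m + m') := fun x =>
  ⟨by
    rw [Finsupp.smul_apply, smul_eq_mul, mul_comm]
    exact h.mul (hv x).1 hc,
   fun h0 => (hv x).2 (by
    intro h1
    exact h0 (by simp [h1]))⟩

theorem W_map (h : Good A T B) {N m N' m' : ℤ} {v : List St →₀ F} (hv : v ∈ W B N m)
    (f : (List St →₀ F) →ₗ[F] (List St →₀ F)) (hf : ∀ x, sm N x → f (e x) ∈ W B N' m') :
    f v ∈ W B N' (m + m') := by
  have h1 : v = ∑ x ∈ v.support, v x • e x := by
    conv_lhs => rw [← sum_single v]
    rw [Finsupp.sum]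
    apply Finset.sum_congr rfl
    intro y _
    simp [e]
  rw [h1, map_sum]
  apply AddSubgroup.sum_mem
  intro x hx
  rw [map_smul, add_comm]
  exact W_smul h (hf x ((hv x).2 (by simpa using hx))) (hv x).1

theorem W_cons (h : Good A T B) {N m : ℤ} {v : List St →₀ F} (hv : v ∈ W B N m) {s : St}
    (hs : sm N [s]) : consL s v ∈ W B N m := by
  have := W_map h hv (consL s) (N' := N) (m' := 0) (fun x hx => by
    rw [consL_e, ← one_smul F (e (s :: x))]
    apply W_e h h.one
    intro n hn
    rcases List.mem_cons.mp hn with h1 | h1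
    · exact hs n (by simp [h1])
    · exact hx n h1)
  simpa using this

theorem Good.coef1 (h : Good A T B) {N n : ℤ} (hn : |n| ≤ N) :
    T * (A ^ (2 * n))⁻¹ ∈ B (2 * N) :=
  h.le (h.mul h.hT (h.zpow' _)) (by
    have := abs_le.mp hn
    omega)

theorem Good.coef2 (h : Good A T B) {N n : ℤ} (hn : |n| ≤ N) :
    T⁻¹ * A ^ (2 * n) ∈ B (2 * N) :=
  h.le (h.mul h.hT' (h.zpow _)) (by
    have := abs_le.mp hn
    omega)

theorem Good.coef3 (h : Good A T B) {N n : ℤ} (hn : |n| ≤ N) :
    beta A T n ∈ B (6 * N) := by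
  have h0 := abs_le.mp hn
  unfold beta
  have h1 : A ^ (2 * n) - (A ^ (2 * n))⁻¹ ∈ B (2 * N) :=
    (B _).sub_mem (h.le (h.zpow _) (by omega)) (h.le (h.zpow' _) (by omega))
  have h2 : T - T⁻¹ ^ 3 * (A ^ (2 * n)) ^ 2 * A⁻¹ ^ 4 ∈ B (4 * N) := by
    apply (B _).sub_mem (h.le h.hT (by omega))
    refine h.le (h.mul (h.mul (h.pow h.hT' 3) (h.pow (h.zpow _) 2)) (h.pow h.hA' 4)) ?_
    push_cast
    omega
  exact h.le (h.mul h1 h2) (by omega)

theorem act_W (h : Good A T B) {N : ℤ} (hN : 0 ≤ N) (p : Piece) (k : ℕ) {x : List St}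
    (hx : sm N x) : act A T p k x ∈ W B (N + 1) (6 * N + 6) := by
  induction k generalizing x with
  | zero =>
    have hA1 : A ∈ B (6 * N + 6) := h.le h.hA (by omega)
    have hA1' : A⁻¹ ∈ B (6 * N + 6) := h.le h.hA' (by omega)
    have h1 : (1 : F) ∈ B (6 * N + 6) := h.le h.one (by omega)
    rcases p with _ | _ | _ | _
    · apply AddSubgroup.add_mem <;> apply W_e h
      · refine (B _).neg_mem (h.le (h.pow h.hA 2) ?_)
        push_cast
        omega
      · intro n hn
        have := hx n (by simpa using hn)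
        omega
      · exact h1
      · intro n hn
        have := hx n (by simpa using hn)
        omega
    · rcases x with _ | ⟨s, _ | ⟨t, x⟩⟩
      · exact AddSubgroup.zero_mem _
      · exact AddSubgroup.zero_mem _
      · have hx' : sm (N + 1) x := fun n hn => by
          have := hx n (by simp [hn])
          omega
        rcases s with (_ | _) | n <;> rcases t with (_ | _) | m
        case o.false.o.true => exact W_e h h1 hx'
        case o.true.o.false =>
          refine W_e h ((B _).neg_mem (h.le (h.pow h.hA' 2) ?_)) hx'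
          push_cast
          omega
        all_goals exact AddSubgroup.zero_mem _
    · rcases x with _ | ⟨s, _ | ⟨t, x⟩⟩
      · exact AddSubgroup.zero_mem _
      · exact AddSubgroup.zero_mem _
      · have hx' : ∀ n : ℤ, St.k n ∈ x → |n| ≤ N + 1 := fun n hn => by
          have := hx n (by simp [hn])
          omega
        have hs : ∀ n : ℤ, s = St.k n → |n| ≤ N := fun n hn => hx n (by simp [hn])
        have ht : ∀ n : ℤ, t = St.k n → |n| ≤ N := fun n hn => hx n (by simp [hn])
        have key : ∀ (c : F) (a b : St), c ∈ B (6 * N + 6) →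
            (∀ n : ℤ, a = St.k n → |n| ≤ N + 1) → (∀ n : ℤ, b = St.k n → |n| ≤ N + 1) →
            c • e (a :: b :: x) ∈ W B (N + 1) (6 * N + 6) := by
          intro c a b hc ha hb
          apply W_e h hc
          intro n hn
          rcases List.mem_cons.mp hn with h2 | hn
          · exact ha n h2.symm
          · rcases List.mem_cons.mp hn with h2 | hn
            · exact hb n h2.symm
            · exact hx' n hn
        have habs : ∀ n : ℤ, |n| ≤ N → |n + 1| ≤ N + 1 ∧ |n - 1| ≤ N + 1 ∧ |n| ≤ N + 1 := by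
          intro n hn
          rw [abs_le] at hn
          refine ⟨abs_le.mpr ⟨?_, ?_⟩, abs_le.mpr ⟨?_, ?_⟩, abs_le.mpr ⟨?_, ?_⟩⟩ <;> omega
        rcases s with (_ | _) | n <;> rcases t with (_ | _) | m
        · exact key _ _ _ hA1 (by simp) (by simp)
        · exact key _ _ _ hA1' (by simp) (by simp)
        · have hm := ht m rfl
          refine key _ _ _ (h.le (h.coef1 hm) (by omega)) ?_ (by simp)
          rintro n ⟨⟩; exact (habs _ hm).2.2
        · refine AddSubgroup.add_mem _ (key _ _ _ hA1' (by simp) (by simp))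
            (key _ _ _ ?_ (by simp) (by simp))
          refine (B _).sub_mem hA1 (h.le (h.pow h.hA' 3) ?_)
          push_cast
          omega
        · exact key _ _ _ hA1 (by simp) (by simp)
        · have hm := ht m rfl
          refine AddSubgroup.add_mem _ (key _ _ _ (h.le (h.coef2 hm) (by omega)) ?_ (by simp))
            (key _ _ _ ?_ ?_ (by simp))
          · rintro n ⟨⟩; exact (habs _ hm).2.2
          · refine h.le (h.mul (h.coef1 hm) (h.pow h.hA' 2)) ?_
            push_cast
            omega
          · rintro n ⟨⟩; exact (habs _ hm).1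
        · have hm := hs n rfl
          refine AddSubgroup.add_mem _ (key _ _ _ (h.le (h.coef1 hm) (by omega)) (by simp) ?_)
            (key _ _ _ (h.le (h.coef3 hm) (by omega)) (by simp) ?_)
          · rintro n ⟨⟩; exact (habs _ hm).2.2
          · rintro n ⟨⟩; exact (habs _ hm).2.1
        · have hm := hs n rfl
          refine key _ _ _ (h.le (h.coef2 hm) (by omega)) (by simp) ?_
          rintro n ⟨⟩; exact (habs _ hm).2.2
        · exact AddSubgroup.zero_mem _
    · rcases x with _ | ⟨s, _ | ⟨t, x⟩⟩
      · exact AddSubgroup.zero_mem _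
      · exact AddSubgroup.zero_mem _
      · have hx' : ∀ n : ℤ, St.k n ∈ x → |n| ≤ N + 1 := fun n hn => by
          have := hx n (by simp [hn])
          omega
        have hs : ∀ n : ℤ, s = St.k n → |n| ≤ N := fun n hn => hx n (by simp [hn])
        have ht : ∀ n : ℤ, t = St.k n → |n| ≤ N := fun n hn => hx n (by simp [hn])
        have key : ∀ (c : F) (a b : St), c ∈ B (6 * N + 6) →
            (∀ n : ℤ, a = St.k n → |n| ≤ N + 1) → (∀ n : ℤ, b = St.k n → |n| ≤ N + 1) →
            c • e (a :: b :: x) ∈ W B (N + 1) (6 * N + 6) := by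
          intro c a b hc ha hb
          apply W_e h hc
          intro n hn
          rcases List.mem_cons.mp hn with h2 | hn
          · exact ha n h2.symm
          · rcases List.mem_cons.mp hn with h2 | hn
            · exact hb n h2.symm
            · exact hx' n hn
        have habs : ∀ n : ℤ, |n| ≤ N → |n + 1| ≤ N + 1 ∧ |n - 1| ≤ N + 1 ∧ |n| ≤ N + 1 := by
          intro n hn
          rw [abs_le] at hn
          refine ⟨abs_le.mpr ⟨?_, ?_⟩, abs_le.mpr ⟨?_, ?_⟩, abs_le.mpr ⟨?_, ?_⟩⟩ <;> omega
        rcases s with (_ | _) | n <;> rcases t with (_ | _) | m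
        · exact key _ _ _ hA1' (by simp) (by simp)
        · refine AddSubgroup.add_mem _ (key _ _ _ hA1 (by simp) (by simp))
            (key _ _ _ ?_ (by simp) (by simp))
          refine (B _).sub_mem hA1' (h.le (h.pow h.hA 3) ?_)
          push_cast
          omega
        · have hm := ht m rfl
          refine AddSubgroup.add_mem _ (key _ _ _ (h.le (h.coef2 hm) (by omega)) ?_ (by simp))
            (key _ _ _ ?_ ?_ (by simp))
          · rintro n ⟨⟩; exact (habs _ hm).2.2
          · refine (B _).neg_mem (h.le (h.mul (h.pow h.hA 2) (h.coef3 hm)) ?_)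
            push_cast
            omega
          · rintro n ⟨⟩; exact (habs _ hm).2.1
        · exact key _ _ _ hA1 (by simp) (by simp)
        · exact key _ _ _ hA1' (by simp) (by simp)
        · have hm := ht m rfl
          refine key _ _ _ (h.le (h.coef1 hm) (by omega)) ?_ (by simp)
          rintro n ⟨⟩; exact (habs _ hm).2.2
        · have hm := hs n rfl
          refine key _ _ _ (h.le (h.coef2 hm) (by omega)) (by simp) ?_
          rintro n ⟨⟩; exact (habs _ hm).2.2
        · have hm := hs n rfl
          refine AddSubgroup.add_mem _ (key _ _ _ (h.le (h.coef1 hm) (by omega)) (by simp) ?_)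
            (key _ _ _ ((B _).neg_mem (h.le (h.coef1 hm) (by omega))) (by simp) ?_)
          · rintro n ⟨⟩; exact (habs _ hm).2.2
          · rintro n ⟨⟩; exact (habs _ hm).1
        · exact AddSubgroup.zero_mem _
  | succ k ih =>
    rcases x with _ | ⟨s, x⟩
    · exact AddSubgroup.zero_mem _
    · refine W_cons h (ih fun n hn => hx n (by simp [hn])) ?_
      intro n hn
      have := hx n (by
        simp only [List.mem_singleton] at hn
        simp [hn])
      omega

theorem lin_W (h : Good A T B) {N m : ℤ} (hN : 0 ≤ N) (p : Piece) (k : ℕ)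
    {v : List St →₀ F} (hv : v ∈ W B N m) :
    lin A T k p v ∈ W B (N + 1) (m + (6 * N + 6)) :=
  W_map h hv _ fun x hx => by
    rw [lin_e]
    exact act_W h hN p k hx

theorem op_W (h : Good A T B) (w : Word) {N m : ℤ} (hN : 0 ≤ N) {v : List St →₀ F}
    (hv : v ∈ W B N m) :
    op A T w v ∈ W B (N + w.length) (m + w.length * (6 * (N + w.length) + 6)) := by
  induction w generalizing N m v with
  | nil => simpa using hv
  | cons l w ih =>
    obtain ⟨k, p⟩ := l
    have h1 := ih (by omega) (lin_W h hN p k hv)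
    rw [op_cons]
    refine W_mono h ?_ ?_ h1
    · push_cast [List.length_cons]
      omega
    · push_cast [List.length_cons]
      nlinarith [w.length.cast_nonneg (α := ℤ)]

theorem sm_of_mem {r : Row} {d : ℤ} {x : List St} (hx : x ∈ S r d) :
    sm (|d| + r.length) x := by
  obtain ⟨h1, h2, h3⟩ := hx
  intro n hn
  have hlen : x.length = r.length := by rw [← h1, List.length_map]
  have hn0 : 0 ≤ n := h2 _ hn
  have key : ∀ y : List St, (∀ s ∈ y, s.ok) → St.k n ∈ y →
      2 * n - (y.length : ℤ) ≤ (y.map St.deg).sum := by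
    intro y
    induction y with
    | nil => simp
    | cons s y ih =>
      intro hy hmem
      have h4 := deg_ge (x := y) fun t ht => hy t (List.mem_cons_of_mem _ ht)
      rcases List.mem_cons.mp hmem with rfl | hmem
      · simp only [List.map_cons, List.sum_cons, St.deg, List.length_cons]
        push_cast
        omega
      · have h5 := ih (fun t ht => hy t (List.mem_cons_of_mem _ ht)) hmem
        have h6 := hy s List.mem_cons_self
        rcases s with (_ | _) | m <;>
          simp only [List.map_cons, List.sum_cons, St.deg, List.length_cons, St.ok] at h6 ⊢ <;>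
          push_cast <;> omega
  have := key x h2 hn
  rw [abs_of_nonneg hn0]
  have hd := le_abs_self d
  omega

theorem g_B (h : Good A T B) (r : Row) (w : Word) (d : ℤ) :
    g A T r w d ∈ B (w.length * (6 * (|d| + r.length + w.length) + 6)) := by
  unfold g
  apply AddSubgroup.sum_mem
  intro x hx
  have h1 : (e x : List St →₀ F) ∈ W B (|d| + r.length) 0 := by
    rw [← one_smul F (e x)]
    exact W_e h h.one (sm_of_mem (mem_SF.mp hx))
  have h2 := (op_W h w (by positivity) h1 x).1
  simpa using h2

/-- functions of linear growth with slope at most `C` -/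
def slope (B : ℤ → AddSubgroup F) (C : ℤ) (f : ℤ → F) : Prop :=
  ∃ c : ℤ, ∀ d, f d ∈ B (C * |d| + c)

theorem g_slope (h : Good A T B) (r : Row) (w : Word) : slope B (6 * w.length) (g A T r w) := by
  refine ⟨w.length * (6 * (r.length + w.length) + 6), fun d => ?_⟩
  convert g_B h r w d using 2
  ring

theorem slope_mono (h : Good A T B) {C C' : ℤ} (hC : C ≤ C') {f : ℤ → F}
    (hf : slope B C f) : slope B C' f := by
  obtain ⟨c, hc⟩ := hf
  refine ⟨c, fun d => h.le (hc d) ?_⟩
  nlinarith [abs_nonneg d]

theorem slope_add (h : Good A T B) {C : ℤ} {f f' : ℤ → F} (hf : slope B C f)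
    (hf' : slope B C f') : slope B C (f + f') := by
  obtain ⟨c, hc⟩ := hf
  obtain ⟨c', hc'⟩ := hf'
  refine ⟨max c c', fun d => ?_⟩
  exact (B _).add_mem (h.le (hc d) (by simp)) (h.le (hc' d) (by simp))

theorem slope_zero (C : ℤ) : slope B C (0 : ℤ → F) := ⟨0, fun d => (B _).zero_mem⟩

theorem slope_mul (h : Good A T B) {C m : ℤ} {f : ℤ → F} (hf : slope B C f) {a : F}
    (ha : a ∈ B m) : slope B C (fun d => a * f d) := by
  obtain ⟨c, hc⟩ := hf
  refine ⟨c + m, fun d => ?_⟩
  exact h.le (h.mul ha (hc d)) (by omega)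

theorem slope_strand (h : Good A T B) {C : ℤ} (hC : 0 ≤ C) {f : ℤ → F} (hf : slope B C f) :
    slope B C (fun d => f (d + 1) + f (d - 1)) := by
  obtain ⟨c, hc⟩ := hf
  refine ⟨c + C, fun d => ?_⟩
  refine (B _).add_mem (h.le (hc _) ?_) (h.le (hc _) ?_)
  · have := abs_add_le d 1
    have h1 : |(1 : ℤ)| = 1 := rfl
    nlinarith
  · have := abs_sub d 1
    have h1 : |(1 : ℤ)| = 1 := rfl
    nlinarith

theorem lam_mem (h : Good A T B) : lam A T ∈ B 2 := by
  unfold lam
  refine (B _).neg_mem ((B _).add_mem (h.le (h.mul (h.pow h.hA 2) (h.pow h.hT 2)) ?_)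
    (h.le (h.mul (h.pow h.hA' 2) (h.pow h.hT' 2)) ?_)) <;> push_cast <;> omega

end

end Pool.Agent.R804.Ext
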