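import Pool.Agent.R804.Ext.Slide2

/-!
# The meridian operators on the skein module
-/

set_option autoImplicit false
set_option linter.unusedSimpArgs false
set_option linter.unusedVariables false

namespace Pool.Agent.R804.Ext

theorem up_loop (k : ℕ) : up (loop k) = loop (k + 1) := rfl

theorem up_single (i : ℕ) (p : Piece) : up [(i, p)] = [(i + 1, p)] := rfl

theorem run_loop {j : ℕ} {r : Row} (h : j < r.count true) :
    run r (loop (place j r)) = some r := by
  induction r generalizing j with
  | nil => simp at h
  | cons b r ih =>
    cases b with
    | false =>
      have : place j (false :: r) = place j r + 1 := by cases j <;> rfl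
      rw [this, ← up_loop, runUp, ih (by simpa using h)]
      rfl
    | true =>
      cases j with
      | zero => rfl
      | succ j =>
        have : place (j + 1) (true :: r) = place j r + 1 := rfl
        rw [this, ← up_loop, runUp, ih (by simpa using h)]
        rfl

theorem count_next {k : ℕ} {p : Piece} {r r' : Row} (h : next k p r = some r') :
    r'.count true = r.count true := by
  induction k generalizing r r' with
  | zero =>
    rcases p with _ | _ | _ | _
    · simp only [next, first, Option.some.injEq] at h
      subst h
      simp
    · rcases r with _ | ⟨_ | _, _ | ⟨_ | _, r⟩⟩ <;> simp [next, first] at h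
      subst h
      simp
    · obtain ⟨x, y, r1, rfl, rfl, -⟩ := first_cross (Or.inl rfl) h
      simp only [List.count_cons]
      ring
    · obtain ⟨x, y, r1, rfl, rfl, -⟩ := first_cross (Or.inr rfl) h
      simp only [List.count_cons]
      ring
  | succ k ih =>
    rcases r with _ | ⟨x, r⟩
    · simp [next] at h
    · simp only [next, Option.map_eq_some_iff] at h
      obtain ⟨r1, h1, rfl⟩ := h
      simp only [List.count_cons, ih h1]

theorem count_run {w : Word} {r r' : Row} (h : run r w = some r') :
    r'.count true = r.count true := by
  induction w generalizing r with
  | nil =>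
    simp only [run, Option.some.injEq] at h
    rw [h]
  | cons l w ih =>
    obtain ⟨k, p⟩ := l
    simp only [run, Option.bind_eq_some_iff] at h
    obtain ⟨r1, h1, h2⟩ := h
    rw [ih h2, count_next h1]

theorem place_false (j : ℕ) (r : Row) : place j (false :: r) = place j r + 1 := by
  cases j <;> rfl

/-- the loop slides through a piece -/
theorem slide {j i : ℕ} {p : Piece} {r r' : Row} (hj : j < r.count true)
    (h : next i p r = some r') :
    Iso r r' (loop (place j r) ++ [(i, p)]) ([(i, p)] ++ loop (place j r')) := by
  induction i generalizing r r' j with
  | zero =>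
    have hfar : ∀ k, place j r = k + p.low → place j r' = k + p.high →
        Iso r r' (loop (place j r) ++ [(0, p)]) ([(0, p)] ++ loop (place j r')) := by
      intro k hk hk'
      have hj' : j < r'.count true := by rw [count_next h]; exact hj
      have := run_loop hj'
      rw [hk, hk']
      apply loop_far
      rw [← hk', runAppend_of (r1 := r')]
      · exact this
      · simp [run, h]
    have hcross : p = .pos ∨ p = .neg →
        Iso r r' (loop (place j r) ++ [(0, p)]) ([(0, p)] ++ loop (place j r')) := by
      intro hp
      have hlow : p.low = 2 ∧ p.high = 2 := by rcases hp with rfl | rfl <;> exact ⟨rfl, rfl⟩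
      obtain ⟨x, y, r1, rfl, rfl, hxy⟩ := first_cross hp h
      cases x <;> cases y
      · apply hfar (place j r1)
        · rw [place_false, place_false, hlow.1]
        · rw [place_false, place_false, hlow.2]
      · cases j with
        | zero => exact loop_left p hp r1
        | succ j =>
          apply hfar (place j r1)
          · rw [hlow.1]; rfl
          · rw [hlow.2]; simp [place]
      · cases j with
        | zero => exact loop_right p hp r1
        | succ j =>
          apply hfar (place j r1)
          · rw [hlow.1]; simp [place]
          · rw [hlow.2]; simp [place]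
      · simp at hxy
    rcases p with _ | _ | _ | _
    · simp only [next, first, Option.some.injEq] at h
      subst h
      apply hfar (place j r)
      · rfl
      · rw [place_false, place_false]; rfl
    · rcases r with _ | ⟨_ | _, _ | ⟨_ | _, r⟩⟩ <;> simp [next, first] at h
      subst h
      apply hfar (place j r)
      · rw [place_false, place_false]; rfl
      · rfl
    · exact hcross (Or.inl rfl)
    · exact hcross (Or.inr rfl)
  | succ i ih =>
    rcases r with _ | ⟨b, r⟩
    · simp [next] at h
    · simp only [next, Option.map_eq_some_iff] at h
      obtain ⟨r1, h1, rfl⟩ := h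
      cases b with
      | false =>
        have := (ih (j := j) (by simpa using hj) h1).up' false
        rw [up_append, up_append, up_loop, up_loop, up_single] at this
        rw [place_false, place_false]
        exact this
      | true =>
        cases j with
        | zero => exact loop_near p i h1
        | succ j =>
          have := (ih (j := j) (by simpa using hj) h1).up' true
          rw [up_append, up_append, up_loop, up_loop, up_single] at this
          exact this

/-- the loop slides through a word -/
theorem slide_word {j : ℕ} {w : Word} {r r' : Row} (hj : j < r.count true)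
    (h : run r w = some r') :
    Iso r r' (loop (place j r) ++ w) (w ++ loop (place j r')) := by
  induction w generalizing r with
  | nil =>
    simp only [run, Option.some.injEq] at h
    subst h
    simpa using Iso.refl' _
  | cons l w ih =>
    obtain ⟨k, p⟩ := l
    simp only [run, Option.bind_eq_some_iff] at h
    obtain ⟨r1, h1, h2⟩ := h
    have hj' : j < r1.count true := by rw [count_next h1]; exact hj
    have t1 := (slide hj h1).post (V := w) h2
    have t2 := (ih hj' h2).pre (r0 := r) (U := [(k, p)]) (by simp [run, h1])
    have t3 := t1.trans' (by simpa using t2)
    simpa using t3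

theorem link_rotate {r r' : Row} {u v : Word} (hu : run r u = some r')
    (hv : run r' v = some r) : link r (u ++ v) = link r' (v ++ u) := by
  have h1 : run r (u ++ v) = some r := by rw [runAppend_of hu, hv]
  have h2 : run r' (v ++ u) = some r' := by rw [runAppend_of hv, hu]
  unfold link
  by_cases hc : r.count true = 2
  · have hc' : r'.count true = 2 := by rw [count_run hu, hc]
    rw [dif_pos ⟨h1, hc⟩, dif_pos ⟨h2, hc'⟩]
    congr 1
    apply Quot.sound
    exact Or.inr ⟨u, v, rfl, rfl, hu⟩
  · rw [dif_neg fun h => hc h.2, dif_neg fun h => hc (by rw [← count_run hu]; exact h.2)]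

/-- adding the meridian of the fixed strand `L_{j+1}` to a diagram -/
noncomputable def addLoopDiagram (j : Fin 2) (D : Diagram) : FramedLink →₀ QA :=
  link D.row (loop (place j D.row) ++ D.word)

theorem addLoopDiagram_step (j : Fin 2) (D E : Diagram) (h : Step D E) :
    addLoopDiagram j D = addLoopDiagram j E := by
  have hj : (j : ℕ) < D.row.count true := by rw [D.two]; exact j.2
  unfold addLoopDiagram
  rcases h with ⟨hr, U, V, X, Y, hm, h1, h2⟩ | ⟨u, v, h1, h2, h3⟩
  · rw [← hr, h1, h2]
    apply link_iso
    have hD := D.closed
    have hE := E.closed
    rw [h1] at hD
    rw [h2, ← hr] at hE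
    apply Iso.pre _ (run_loop hj)
    exact Iso.mk' U V hm hD hE
  · have hc := D.closed
    rw [h1] at hc
    obtain ⟨r1, hu, hv⟩ := runAppend_some hc
    rw [h3] at hu
    obtain rfl : E.row = r1 := by simpa using hu
    have hs := slide_word hj h3
    rw [h1, h2, ← List.append_assoc, link_iso (hs.post hv)]
    rw [List.append_assoc, link_rotate h3, List.append_assoc]
    rw [runAppend_of (run_loop _), hv]
    rw [E.two]; exact j.2

/-- adding the meridian of the fixed strand `L_{j+1}` to a framed link -/
noncomputable def addLoopLink (j : Fin 2) : FramedLink → (FramedLink →₀ QA) :=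
  Quot.lift (addLoopDiagram j) (addLoopDiagram_step j)

/-- Adding the meridian `m_{j+1}` of the fixed strand `L_{j+1}`: a small loop around this
strand. -/
noncomputable def addLoop (j : Fin 2) : (FramedLink →₀ QA) →ₗ[QA] (FramedLink →₀ QA) :=
  Finsupp.linearCombination QA (addLoopLink j)

/-- adding a vertical strand at the left end to a diagram -/
noncomputable def addStrandDiagram (D : Diagram) : FramedLink →₀ QA :=
  link (false :: D.row) (up D.word)

theorem addStrandDiagram_step (D E : Diagram) (h : Step D E) :
    addStrandDiagram D = addStrandDiagram E := by
  unfold addStrandDiagram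
  rcases h with ⟨hr, U, V, X, Y, hm, h1, h2⟩ | ⟨u, v, h1, h2, h3⟩
  · rw [← hr]
    apply link_iso
    have hD := D.closed
    have hE := E.closed
    rw [h1] at hD ⊢
    rw [h2] at hE ⊢
    rw [← hr] at hE
    exact (Iso.mk' U V hm hD hE).up' false
  · have hc := D.closed
    rw [h1] at hc
    obtain ⟨r1, hu, hv⟩ := runAppend_some hc
    rw [h3] at hu
    obtain rfl : E.row = r1 := by simpa using hu
    rw [h1, h2, up_append, up_append]
    apply link_rotate
    · rw [runUp, h3]; rfl
    · rw [runUp, hv]; rfl

/-- adding the meridian of the axis `L_3` to a framed link -/
noncomputable def addStrandLink : FramedLink → (FramedLink →₀ QA) :=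
  Quot.lift addStrandDiagram addStrandDiagram_step

/-- Adding the meridian `m_3` of the axis `L_3`: a vertical strand at the left end of the
diagram. -/
noncomputable def addStrand : (FramedLink →₀ QA) →ₗ[QA] (FramedLink →₀ QA) :=
  Finsupp.linearCombination QA addStrandLink

theorem addLoop_link (j : Fin 2) {r : Row} {w : Word} (h : run r w = some r)
    (h2 : r.count true = 2) :
    addLoop j (link r w) = link r (loop (place j r) ++ w) := by
  unfold addLoop
  conv_lhs => rw [link, dif_pos ⟨h, h2⟩]
  rw [Finsupp.linearCombination_single, one_smul]
  rfl

theorem addStrand_link {r : Row} {w : Word} (h : run r w = some r)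
    (h2 : r.count true = 2) :
    addStrand (link r w) = link (false :: r) (up w) := by
  unfold addStrand
  conv_lhs => rw [link, dif_pos ⟨h, h2⟩]
  rw [Finsupp.linearCombination_single, one_smul]
  rfl

theorem link_of_count {r : Row} (w : Word) (h : r.count true ≠ 2) : link r w = 0 := by
  unfold link
  rw [dif_neg fun h' => h h'.2]

end Pool.Agent.R804.Ext
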