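import Pool.Agent.R804.Ext.Meridian

/-!
# The meridian operators descend to the skein module
-/

set_option autoImplicit false
set_option linter.unusedSimpArgs false
set_option linter.unusedVariables false

namespace Pool.Agent.R804.Ext

theorem next_smooth {k : ℕ} {r r1 r2 : Row} (h1 : next k .cap r = some r1)
    (h2 : next k .cup r1 = some r2) :
    r2 = r ∧ next k .pos r = some r ∧ next k .neg r = some r := by
  induction k generalizing r r1 r2 with
  | zero =>
    rcases r with _ | ⟨_ | _, _ | ⟨_ | _, r⟩⟩ <;> simp [next, first] at h1 h2 ⊢
    subst h1
    exact h2.symm
  | succ k ih =>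
    rcases r with _ | ⟨x, r⟩
    · simp [next] at h1
    · simp only [next, Option.map_eq_some_iff] at h1
      obtain ⟨r3, h3, rfl⟩ := h1
      simp only [next, Option.map_eq_some_iff] at h2
      obtain ⟨r4, h4, rfl⟩ := h2
      obtain ⟨rfl, h5, h6⟩ := ih h3 h4
      simp [next, h5, h6]

theorem run_smooth {k : ℕ} {r r2 : Row} (h : run r [(k, .cap), (k, .cup)] = some r2) :
    r2 = r ∧ run r [(k, .pos)] = some r ∧ run r [(k, .neg)] = some r := by
  simp only [run, Option.bind_eq_some_iff, Option.bind_some, Option.some.injEq] at h ⊢
  obtain ⟨r1, h1, r3, h3, rfl⟩ := h
  obtain ⟨h4, h5, h6⟩ := next_smooth h1 h3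
  exact ⟨h4, ⟨r, h5, rfl⟩, ⟨r, h6, rfl⟩⟩

theorem next_circle {k : ℕ} {r r1 r2 : Row} (h1 : next k .cup r = some r1)
    (h2 : next k .cap r1 = some r2) : r2 = r := by
  induction k generalizing r r1 r2 with
  | zero =>
    simp only [next, first, Option.some.injEq] at h1
    subst h1
    simp only [next, first, Option.some.injEq] at h2
    exact h2.symm
  | succ k ih =>
    rcases r with _ | ⟨x, r⟩
    · simp [next] at h1
    · simp only [next, Option.map_eq_some_iff] at h1
      obtain ⟨r3, h3, rfl⟩ := h1
      simp only [next, Option.map_eq_some_iff] at h2
      obtain ⟨r4, h4, rfl⟩ := h2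
      rw [ih h3 h4]

theorem run_circle {k : ℕ} {r r2 : Row} (h : run r [(k, .cup), (k, .cap)] = some r2) :
    r2 = r := by
  simp only [run, Option.bind_eq_some_iff, Option.some.injEq] at h
  obtain ⟨r1, h1, r3, h3, rfl⟩ := h
  exact next_circle h1 h3

/-- the words in the skein relations are valid -/
theorem smooth_valid {r r' : Row} {U V : Word} {k : ℕ}
    (h : run r (U ++ [(k, .cap), (k, .cup)] ++ V) = some r') :
    run r (U ++ [(k, .pos)] ++ V) = some r' ∧ run r (U ++ [(k, .neg)] ++ V) = some r' ∧
      run r (U ++ V) = some r' := by
  obtain ⟨r2, h1, h2⟩ := runAppend_some h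
  obtain ⟨r1, h3, h4⟩ := runAppend_some h1
  obtain ⟨rfl, h5, h6⟩ := run_smooth h4
  refine ⟨?_, ?_, ?_⟩
  · rw [List.append_assoc, runAppend_of h3, runAppend_of h5, h2]
  · rw [List.append_assoc, runAppend_of h3, runAppend_of h6, h2]
  · rw [runAppend_of h3, h2]

theorem circle_valid {r r' : Row} {U V : Word} {k : ℕ}
    (h : run r (U ++ [(k, .cup), (k, .cap)] ++ V) = some r') :
    run r (U ++ V) = some r' := by
  obtain ⟨r2, h1, h2⟩ := runAppend_some h
  obtain ⟨r1, h3, h4⟩ := runAppend_some h1
  obtain rfl := run_circle h4
  rw [runAppend_of h3, h2]

theorem addLoop_relation (j : Fin 2) {x : FramedLink →₀ QA} (h : Relation x) :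
    addLoop j x ∈ relations := by
  induction h with
  | pos r U V k h =>
    by_cases hc : r.count true = 2
    · obtain ⟨h1, h2, h3⟩ := smooth_valid h
      have hj : (j : ℕ) < r.count true := by rw [hc]; exact j.2
      have := Relation.pos r (loop (place j r) ++ U) V k
        (by rw [List.append_assoc, List.append_assoc, runAppend_of (run_loop hj),
          ← List.append_assoc, h])
      rw [map_sub, map_add, map_smul, map_smul, addLoop_link j h1 hc, addLoop_link j h3 hc,
        addLoop_link j h hc]
      apply Submodule.subset_span
      change Relation _
      simpa only [List.append_assoc] using this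
    · simp [link_of_count _ hc]
  | neg r U V k h =>
    by_cases hc : r.count true = 2
    · obtain ⟨h1, h2, h3⟩ := smooth_valid h
      have hj : (j : ℕ) < r.count true := by rw [hc]; exact j.2
      have := Relation.neg r (loop (place j r) ++ U) V k
        (by rw [List.append_assoc, List.append_assoc, runAppend_of (run_loop hj),
          ← List.append_assoc, h])
      rw [map_sub, map_add, map_smul, map_smul, addLoop_link j h2 hc, addLoop_link j h3 hc,
        addLoop_link j h hc]
      apply Submodule.subset_span
      change Relation _
      simpa only [List.append_assoc] using this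
    · simp [link_of_count _ hc]
  | circle r U V k h =>
    by_cases hc : r.count true = 2
    · have h3 := circle_valid h
      have hj : (j : ℕ) < r.count true := by rw [hc]; exact j.2
      have := Relation.circle r (loop (place j r) ++ U) V k
        (by rw [List.append_assoc, List.append_assoc, runAppend_of (run_loop hj),
          ← List.append_assoc, h])
      rw [map_sub, map_smul, addLoop_link j h3 hc, addLoop_link j h hc]
      apply Submodule.subset_span
      change Relation _
      simpa only [List.append_assoc] using this
    · simp [link_of_count _ hc]

theorem addStrand_relation {x : FramedLink →₀ QA} (h : Relation x) :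
    addStrand x ∈ relations := by
  induction h with
  | pos r U V k h =>
    by_cases hc : r.count true = 2
    · obtain ⟨h1, h2, h3⟩ := smooth_valid h
      have := Relation.pos (false :: r) (up U) (up V) (k + 1)
        (by
          have := runUp (r := r) (b := false) (U ++ [(k, .cap), (k, .cup)] ++ V)
          rw [h, up_append, up_append] at this
          exact this)
      rw [map_sub, map_add, map_smul, map_smul, addStrand_link h1 hc, addStrand_link h3 hc,
        addStrand_link h hc]
      apply Submodule.subset_span
      simp only [up_append]
      exact this
    · simp [link_of_count _ hc]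
  | neg r U V k h =>
    by_cases hc : r.count true = 2
    · obtain ⟨h1, h2, h3⟩ := smooth_valid h
      have := Relation.neg (false :: r) (up U) (up V) (k + 1)
        (by
          have := runUp (r := r) (b := false) (U ++ [(k, .cap), (k, .cup)] ++ V)
          rw [h, up_append, up_append] at this
          exact this)
      rw [map_sub, map_add, map_smul, map_smul, addStrand_link h2 hc, addStrand_link h3 hc,
        addStrand_link h hc]
      apply Submodule.subset_span
      simp only [up_append]
      exact this
    · simp [link_of_count _ hc]
  | circle r U V k h =>
    by_cases hc : r.count true = 2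
    · have h3 := circle_valid h
      have := Relation.circle (false :: r) (up U) (up V) (k + 1)
        (by
          have := runUp (r := r) (b := false) (U ++ [(k, .cup), (k, .cap)] ++ V)
          rw [h, up_append, up_append] at this
          exact this)
      rw [map_sub, map_smul, addStrand_link h3 hc, addStrand_link h hc]
      apply Submodule.subset_span
      simp only [up_append]
      exact this
    · simp [link_of_count _ hc]

theorem addLoop_le (j : Fin 2) : relations ≤ relations.comap (addLoop j) := by
  unfold relations
  rw [Submodule.span_le]
  intro x hx
  exact addLoop_relation j hx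

theorem addStrand_le : relations ≤ relations.comap addStrand := by
  unfold relations
  rw [Submodule.span_le]
  intro x hx
  exact addStrand_relation hx

/-- The action of the meridian `m_{j+1}` of `L_{j+1}`, `j = 0, 1`, on the skein module. -/
noncomputable def loopMeridian (j : Fin 2) : Module.End QA SkeinModule :=
  relations.mapQ relations (addLoop j) (addLoop_le j)

/-- The action of the meridian `m_3` of `L_3` on the skein module. -/
noncomputable def axisMeridian : Module.End QA SkeinModule :=
  relations.mapQ relations addStrand addStrand_le

/-- The image of `ℚ(A)[m_1, m_2, m_3]` in the endomorphisms of the skein module. -/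
noncomputable def meridianAlgebra : Subalgebra QA (Module.End QA SkeinModule) :=
  Algebra.adjoin QA {loopMeridian 0, loopMeridian 1, axisMeridian}

end Pool.Agent.R804.Ext
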