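import Pool.Agent.R804.Ext.Rep

set_option autoImplicit false
set_option linter.unusedSimpArgs false
set_option linter.unusedVariables false
set_option linter.unnecessarySeqFocus false

namespace Pool.Agent.R804.Ext

open Finsupp

section

variable {F : Type*} [Field F] {A T : F}

/-- the two words have the same operator on the states of the row `r` -/
def Same (A T : F) (r : Row) (X Y : Word) : Prop :=
  ∀ x : List St, x.map St.ty = r → op A T X (e x) = op A T Y (e x)

theorem same_zigzagR {r r' : Row} (h : run r [(0, .cup), (1, .cap)] = some r') (hA : A ≠ 0) :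
    Same A T r [(0, .cup), (1, .cap)] [] := by
  rintro x rfl
  rcases x with _ | ⟨_ | _, x⟩
  · simp [run, next, first] at h
  · rename_i b
    cases b <;>
    simp [act, base, cupOp, capOp, map_add, smul_smul, hA]
  · simp [run, next, first, St.ty] at h

theorem same_zigzagL {r r' : Row} (h : run r [(1, .cup), (0, .cap)] = some r') (hA : A ≠ 0) :
    Same A T r [(1, .cup), (0, .cap)] [] := by
  rintro x rfl
  rcases x with _ | ⟨_ | _, x⟩
  · simp [run, next] at h
  · rename_i b
    cases b <;>
    simp [act, base, cupOp, capOp, map_add, smul_smul, hA]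
  · simp [run, next, first, St.ty] at h

theorem zp1 (hA : A ≠ 0) (m : ℤ) : A ^ (2 * (m + 1)) = A ^ (2 * m) * A ^ 2 := by
  rw [mul_add, zpow_add₀ hA]
  norm_cast

theorem zp2 (hA : A ≠ 0) (m : ℤ) : A ^ (2 * (m - 1)) = A ^ (2 * m) * (A ^ 2)⁻¹ := by
  rw [mul_sub, zpow_sub₀ hA, div_eq_mul_inv]
  norm_cast

theorem same_r2 {r r' : Row} (h : run r [(0, .pos), (0, .neg)] = some r') (hA : A ≠ 0)
    (hT : T ≠ 0) : Same A T r [(0, .pos), (0, .neg)] [] := by
  rintro x rfl
  have z3 : ∀ m : ℤ, A ^ (2 * m) ≠ 0 := fun m => zpow_ne_zero _ hA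
  rcases x with _ | ⟨s, _ | ⟨t, x⟩⟩
  · simp [run, next, first] at h
  · simp [run, next, first] at h
  · rcases s with (_ | _) | n <;> rcases t with (_ | _) | m
    case k.k => simp [run, next, first, St.ty] at h
    all_goals
      simp only [op_cons, op_nil, lin_e, act, base, crossPos, crossNeg, map_add, map_smul,
        smul_smul, smul_add, beta, zp1 hA, zp2 hA, sub_add_cancel, add_sub_cancel_right]
      match_scalars <;> field_simp [z3] <;> ring

theorem same_r2' {r r' : Row} (h : run r [(0, .neg), (0, .pos)] = some r') (hA : A ≠ 0)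
    (hT : T ≠ 0) : Same A T r [(0, .neg), (0, .pos)] [] := by
  rintro x rfl
  have z3 : ∀ m : ℤ, A ^ (2 * m) ≠ 0 := fun m => zpow_ne_zero _ hA
  rcases x with _ | ⟨s, _ | ⟨t, x⟩⟩
  · simp [run, next, first] at h
  · simp [run, next, first] at h
  · rcases s with (_ | _) | n <;> rcases t with (_ | _) | m
    case k.k => simp [run, next, first, St.ty] at h
    all_goals
      simp only [op_cons, op_nil, lin_e, act, base, crossPos, crossNeg, map_add, map_smul,
        smul_smul, smul_add, beta, zp1 hA, zp2 hA, sub_add_cancel, add_sub_cancel_right]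
      match_scalars <;> field_simp [z3] <;> ring

theorem same_cupSlidePos {r r' : Row} (h : run r [(0, .cup), (1, .pos)] = some r') (hA : A ≠ 0)
    (hT : T ≠ 0) : Same A T r [(0, .cup), (1, .pos)] [(1, .cup), (0, .neg)] := by
  rintro x rfl
  have z3 : ∀ m : ℤ, A ^ (2 * m) ≠ 0 := fun m => zpow_ne_zero _ hA
  rcases x with _ | ⟨s, x⟩
  · simp [run, next, first] at h
  · rcases s with (_ | _) | n
    all_goals
      simp only [op_cons, op_nil, lin_e, act, base, cupOp, consL_e, crossPos, crossNeg, map_add,
        map_smul, smul_smul, smul_add, beta, zp1 hA, zp2 hA, sub_add_cancel, add_sub_cancel_right]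
      try (match_scalars <;> field_simp [z3] <;> ring)

theorem same_cupSlideNeg {r r' : Row} (h : run r [(0, .cup), (1, .neg)] = some r') (hA : A ≠ 0)
    (hT : T ≠ 0) : Same A T r [(0, .cup), (1, .neg)] [(1, .cup), (0, .pos)] := by
  rintro x rfl
  have z3 : ∀ m : ℤ, A ^ (2 * m) ≠ 0 := fun m => zpow_ne_zero _ hA
  rcases x with _ | ⟨s, x⟩
  · simp [run, next, first] at h
  · rcases s with (_ | _) | n
    all_goals
      simp only [op_cons, op_nil, lin_e, act, base, cupOp, consL_e, crossPos, crossNeg, map_add,
        map_smul, smul_smul, smul_add, beta, zp1 hA, zp2 hA, sub_add_cancel, add_sub_cancel_right]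
      try (match_scalars <;> field_simp [z3] <;> ring)

theorem same_capSlidePos {r r' : Row} (h : run r [(1, .pos), (0, .cap)] = some r') (hA : A ≠ 0)
    (hT : T ≠ 0) : Same A T r [(1, .pos), (0, .cap)] [(0, .neg), (1, .cap)] := by
  rintro x rfl
  have z3 : ∀ m : ℤ, A ^ (2 * m) ≠ 0 := fun m => zpow_ne_zero _ hA
  rcases x with _ | ⟨s, _ | ⟨t, _ | ⟨u, x⟩⟩⟩
  · simp [run, next, first] at h
  · simp [run, next, first] at h
  · simp [run, next, first] at h
  · rcases s with (_ | _) | n <;> rcases t with (_ | _) | m <;> rcases u with (_ | _) | l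
    all_goals
      first
      | (exfalso; simp [run, next, first, St.ty] at h; done)
      | (simp only [op_cons, op_nil, lin_e, act, base, capOp, consL_e, crossPos, crossNeg, map_add,
          map_smul, smul_smul, smul_add, beta, zp1 hA, zp2 hA, sub_add_cancel,
          add_sub_cancel_right, map_zero, smul_zero, add_zero, zero_add]
         try (match_scalars <;> field_simp [z3] <;> ring))

theorem same_capSlideNeg {r r' : Row} (h : run r [(1, .neg), (0, .cap)] = some r') (hA : A ≠ 0)
    (hT : T ≠ 0) : Same A T r [(1, .neg), (0, .cap)] [(0, .pos), (1, .cap)] := by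
  rintro x rfl
  have z3 : ∀ m : ℤ, A ^ (2 * m) ≠ 0 := fun m => zpow_ne_zero _ hA
  rcases x with _ | ⟨s, _ | ⟨t, _ | ⟨u, x⟩⟩⟩
  · simp [run, next, first] at h
  · simp [run, next, first] at h
  · simp [run, next, first] at h
  · rcases s with (_ | _) | n <;> rcases t with (_ | _) | m <;> rcases u with (_ | _) | l
    all_goals
      first
      | (exfalso; simp [run, next, first, St.ty] at h; done)
      | (simp only [op_cons, op_nil, lin_e, act, base, capOp, consL_e, crossPos, crossNeg, map_add,
          map_smul, smul_smul, smul_add, beta, zp1 hA, zp2 hA, sub_add_cancel,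
          add_sub_cancel_right, map_zero, smul_zero, add_zero, zero_add]
         try (match_scalars <;> field_simp [z3] <;> ring))

theorem same_curlPos {r r' : Row} (h : run r [(1, .cup), (0, .pos), (1, .cap)] = some r')
    (hA : A ≠ 0) (hT : T ≠ 0) :
    Same A T r [(1, .cup), (0, .pos), (1, .cap)] [(0, .cup), (1, .pos), (0, .cap)] := by
  rintro x rfl
  have z3 : ∀ m : ℤ, A ^ (2 * m) ≠ 0 := fun m => zpow_ne_zero _ hA
  rcases x with _ | ⟨s, x⟩
  · simp [run, next, first] at h
  · rcases s with (_ | _) | n
    case k => simp [run, next, first, St.ty] at h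
    all_goals
      simp only [op_cons, op_nil, lin_e, act, base, cupOp, capOp, consL_e, crossPos, crossNeg,
        map_add, map_smul, smul_smul, smul_add, map_zero, smul_zero, add_zero, zero_add]
      match_scalars <;> field_simp [z3] <;> ring

theorem same_curlNeg {r r' : Row} (h : run r [(1, .cup), (0, .neg), (1, .cap)] = some r')
    (hA : A ≠ 0) (hT : T ≠ 0) :
    Same A T r [(1, .cup), (0, .neg), (1, .cap)] [(0, .cup), (1, .neg), (0, .cap)] := by
  rintro x rfl
  have z3 : ∀ m : ℤ, A ^ (2 * m) ≠ 0 := fun m => zpow_ne_zero _ hA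
  rcases x with _ | ⟨s, x⟩
  · simp [run, next, first] at h
  · rcases s with (_ | _) | n
    case k => simp [run, next, first, St.ty] at h
    all_goals
      simp only [op_cons, op_nil, lin_e, act, base, cupOp, capOp, consL_e, crossPos, crossNeg,
        map_add, map_smul, smul_smul, smul_add, map_zero, smul_zero, add_zero, zero_add]
      match_scalars <;> field_simp [z3] <;> ring

theorem same_r3 {r r' : Row} (h : run r [(0, .pos), (1, .pos), (0, .pos)] = some r')
    (hA : A ≠ 0) (hT : T ≠ 0) :
    Same A T r [(0, .pos), (1, .pos), (0, .pos)] [(1, .pos), (0, .pos), (1, .pos)] := by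
  rintro x rfl
  have z3 : ∀ m : ℤ, A ^ (2 * m) ≠ 0 := fun m => zpow_ne_zero _ hA
  rcases x with _ | ⟨s, _ | ⟨t, _ | ⟨u, x⟩⟩⟩
  · simp [run, next, first] at h
  · simp [run, next, first] at h
  · rcases s with (_ | _) | n <;> rcases t with (_ | _) | m <;>
      simp [run, next, first, St.ty] at h
  · rcases s with (_ | _) | n <;> rcases t with (_ | _) | m <;> rcases u with (_ | _) | l
    all_goals
      first
      | (exfalso; simp [run, next, first, St.ty] at h; done)
      | (simp only [op_cons, op_nil, lin_e, act, base, consL_e, crossPos, crossNeg, map_add,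
          map_smul, smul_smul, smul_add, beta, zp1 hA, zp2 hA, sub_add_cancel,
          add_sub_cancel_right, map_zero, smul_zero, add_zero, zero_add]
         try (match_scalars <;> field_simp [z3] <;> ring))

theorem cross_form1 {p : Piece} {s t : St} (c : F) (a b : St)
    (h : ∀ x : List St, base A T p (s :: t :: x) = c • e (a :: b :: x)) :
    ∃ (c d : F) (a b a' b' : St), ∀ x : List St,
      base A T p (s :: t :: x) = c • e (a :: b :: x) + d • e (a' :: b' :: x) :=
  ⟨c, 0, a, b, .o false, .o false, fun x => by rw [h, zero_smul, add_zero]⟩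

theorem cross_form (p : Piece) (hp : p = .pos ∨ p = .neg) (s t : St) :
    ∃ (c d : F) (a b a' b' : St), ∀ x : List St,
      base A T p (s :: t :: x) = c • e (a :: b :: x) + d • e (a' :: b' :: x) := by
  rcases hp with rfl | rfl
  · rcases s with (_ | _) | n <;> rcases t with (_ | _) | m
    · exact cross_form1 _ _ _ fun x => rfl
    · exact cross_form1 _ _ _ fun x => rfl
    · exact cross_form1 _ _ _ fun x => rfl
    · exact ⟨_, _, _, _, _, _, fun x => rfl⟩
    · exact cross_form1 _ _ _ fun x => rfl
    · exact ⟨_, _, _, _, _, _, fun x => rfl⟩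
    · exact ⟨_, _, _, _, _, _, fun x => rfl⟩
    · exact cross_form1 _ _ _ fun x => rfl
    · exact cross_form1 0 (.o false) (.o false) fun x => by rw [zero_smul]; rfl
  · rcases s with (_ | _) | n <;> rcases t with (_ | _) | m
    · exact cross_form1 _ _ _ fun x => rfl
    · exact ⟨_, _, _, _, _, _, fun x => rfl⟩
    · exact ⟨_, _, _, _, _, _, fun x => rfl⟩
    · exact cross_form1 _ _ _ fun x => rfl
    · exact cross_form1 _ _ _ fun x => rfl
    · exact cross_form1 _ _ _ fun x => rfl
    · exact cross_form1 _ _ _ fun x => rfl
    · exact ⟨_, _, _, _, _, _, fun x => rfl⟩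
    · exact cross_form1 0 (.o false) (.o false) fun x => by rw [zero_smul]; rfl

theorem cap_form (s t : St) :
    ∃ c : F, ∀ x : List St, base A T .cap (s :: t :: x) = c • e x := by
  rcases s with (_ | _) | n <;> rcases t with (_ | _) | m
  case o.false.o.true => exact ⟨_, fun x => rfl⟩
  case o.true.o.false => exact ⟨_, fun x => rfl⟩
  all_goals exact ⟨0, fun x => by rw [zero_smul]; rfl⟩

theorem lin0_cross (p : Piece) (s t : St) {c d : F} {a b a' b' : St}
    (h : ∀ x : List St,
      base A T p (s :: t :: x) = c • e (a :: b :: x) + d • e (a' :: b' :: x))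
    (v : List St →₀ F) : lin A T 0 p (consL s (consL t v)) =
      c • consL a (consL b v) + d • consL a' (consL b' v) := by
  have : (lin A T 0 p).comp ((consL s).comp (consL t)) =
      c • (consL a).comp (consL b) + d • (consL a').comp (consL b') := by
    apply ext_e
    intro x
    simp [act, h x]
  exact LinearMap.congr_fun this v

theorem lin0_cap (s t : St) {c : F} (h : ∀ x : List St, base A T .cap (s :: t :: x) = c • e x)
    (v : List St →₀ F) : lin A T 0 .cap (consL s (consL t v)) = c • v := by
  have : (lin A T 0 .cap).comp ((consL s).comp (consL t)) = c • LinearMap.id := by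
    apply ext_e
    intro x
    simp [act, h x]
  exact LinearMap.congr_fun this v

theorem lin0_cup (v : List St →₀ F) : lin A T 0 .cup v =
    (-A ^ 2) • consL (.o false) (consL (.o true) v) +
      (1 : F) • consL (.o true) (consL (.o false) v) := by
  have : lin A T 0 .cup = (-A ^ 2) • (consL (.o false)).comp (consL (.o true)) +
      (1 : F) • (consL (.o true)).comp (consL (.o false)) := by
    apply ext_e
    intro x
    simp [act, base, cupOp]
  rw [this]
  rfl

theorem same_exchange (p q : Piece) (l : ℕ) {r r' : Row}
    (h : run r [(0, p), (l + p.high, q)] = some r') :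
    Same A T r [(0, p), (l + p.high, q)] [(l + p.low, q), (0, p)] := by
  rintro x rfl
  have hcross : p = .pos ∨ p = .neg →
      op A T [(0, p), (l + 2, q)] (e x) = op A T [(l + 2, q), (0, p)] (e x) := by
    intro hp
    rcases x with _ | ⟨s, _ | ⟨t, x⟩⟩
    · rcases hp with rfl | rfl <;> simp [run, next, first] at h
    · rcases hp with rfl | rfl <;> simp [run, next, first] at h
    · obtain ⟨c, d, a, b, a', b', hf⟩ := cross_form (A := A) (T := T) p hp s t
      simp only [op_cons, op_nil, lin_e]
      change lin A T (l + 2) q (base A T p (s :: t :: x)) =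
        lin A T 0 p (consL s (consL t (act A T q l x)))
      rw [hf, lin0_cross p s t hf, map_add, map_smul, map_smul, lin_e, lin_e]
      rfl
  rcases p with _ | _ | _ | _
  · simp only [op_cons, op_nil, lin_e, Piece.high, Piece.low, add_zero]
    rw [lin0_cup]
    change lin A T (l + 2) q (cupOp A x) = _
    rw [cupOp, map_add, map_smul, map_smul, lin_e, lin_e]
    rfl
  · rcases x with _ | ⟨s, _ | ⟨t, x⟩⟩
    · simp [run, next, first] at h
    · rcases s with (_ | _) | n <;> simp [run, next, first, St.ty] at h
    · obtain ⟨c, hf⟩ := cap_form (A := A) (T := T) s t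
      simp only [op_cons, op_nil, lin_e, Piece.high, Piece.low, add_zero]
      change lin A T l q (base A T .cap (s :: t :: x)) =
        lin A T 0 .cap (consL s (consL t (act A T q l x)))
      rw [hf, lin0_cap s t hf, map_smul, lin_e]
  · exact hcross (Or.inl rfl)
  · exact hcross (Or.inr rfl)

theorem run_up {r : Row} {b : Bool} (w : Word) : run (b :: r) (up w) =
    (run r w).map fun r' => b :: r' := by
  induction w generalizing r with
  | nil => rfl
  | cons l w ih =>
    obtain ⟨k, p⟩ := l
    change run (b :: r) ((k + 1, p) :: up w) = _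
    simp only [run, next]
    cases h : next k p r with
    | none => simp
    | some r' => simp [ih]

theorem run_up_nil {w : Word} (hw : w ≠ []) : run [] (up w) = none := by
  rcases w with _ | ⟨⟨k, p⟩, w⟩
  · exact absurd rfl hw
  · rfl

theorem move_ne_nil {X Y : Word} (h : Move X Y) : X ≠ [] := by
  induction h with
  | right X Y _ ih => intro h; exact ih (by simpa [up] using h)
  | _ => simp

/-- The local moves do not change the operators. -/
theorem same_of_move (hA : A ≠ 0) (hT : T ≠ 0) {X Y : Word} (hm : Move X Y) {r r' : Row}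
    (h : run r X = some r') : Same A T r X Y := by
  induction hm generalizing r r' with
  | exchange p q l => exact same_exchange p q l h
  | zigzagR => exact same_zigzagR h hA
  | zigzagL => exact same_zigzagL h hA
  | cupSlidePos => exact same_cupSlidePos h hA hT
  | cupSlideNeg => exact same_cupSlideNeg h hA hT
  | capSlidePos => exact same_capSlidePos h hA hT
  | capSlideNeg => exact same_capSlideNeg h hA hT
  | curlPos => exact same_curlPos h hA hT
  | curlNeg => exact same_curlNeg h hA hT
  | r2PosNeg => exact same_r2 h hA hT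
  | r2NegPos => exact same_r2' h hA hT
  | r3 => exact same_r3 h hA hT
  | right X Y hm ih =>
    rcases r with _ | ⟨b, r⟩
    · rw [run_up_nil (move_ne_nil hm)] at h
      exact absurd h (by simp)
    · rw [run_up, Option.map_eq_some_iff] at h
      obtain ⟨r'', h1, -⟩ := h
      intro x hx
      rcases x with _ | ⟨s, x⟩
      · simp at hx
      · rw [List.map_cons, List.cons.injEq] at hx
        have := ih h1 x hx.2
        rw [← consL_e, op_up, op_up, this]

end

end Pool.Agent.R804.Ext
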