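import Pool.Agent.R804.Ext.Module
import Pool.Agent.R804.Ext.Func

/-!
# The functional on the skein module
-/

set_option autoImplicit false
set_option linter.unusedSimpArgs false
set_option linter.unusedVariables false

namespace Pool.Agent.R804.Ext

open Finsupp

section

variable {F : Type*} [Field F] {A T : F}

theorem act_smooth (hA : A ≠ 0) {k : ℕ} {r' : Row} {x : List St}
    (h : next k .cap (x.map St.ty) = some r') :
    act A T .pos k x = A • e x + A⁻¹ • op A T [(k, .cap), (k, .cup)] (e x) ∧
      act A T .neg k x = A⁻¹ • e x + A • op A T [(k, .cap), (k, .cup)] (e x) := by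
  induction k generalizing r' x with
  | zero =>
    rcases x with _ | ⟨s, _ | ⟨t, x⟩⟩
    · simp [next, first] at h
    · rcases s with (_ | _) | n <;> simp [next, first, St.ty] at h
    · rcases s with (_ | _) | n <;> rcases t with (_ | _) | m <;>
        simp [next, first, St.ty] at h
      all_goals
        simp only [op_cons, op_nil, lin_e, act, base, crossPos, crossNeg, capOp, cupOp, map_add,
          map_smul, smul_smul, smul_add, map_zero, smul_zero, add_zero]
      · exact ⟨trivial, trivial⟩
      · constructor <;> match_scalars <;> field_simp <;> ring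
      · constructor <;> match_scalars <;> field_simp <;> ring
      · exact ⟨trivial, trivial⟩
  | succ k ih =>
    rcases x with _ | ⟨s, x⟩
    · simp [next] at h
    · simp only [List.map_cons, next, Option.map_eq_some_iff] at h
      obtain ⟨r3, h3, rfl⟩ := h
      obtain ⟨h4, h5⟩ := ih h3
      have h6 : op A T [(k + 1, .cap), (k + 1, .cup)] (e (s :: x)) =
          consL s (op A T [(k, .cap), (k, .cup)] (e x)) := by
        rw [← consL_e]
        exact op_up (A := A) (T := T) [(k, .cap), (k, .cup)] s (e x)
      constructor
      · change consL s (act A T .pos k x) = _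
        rw [h4, h6, map_add, map_smul, map_smul, consL_e]
      · change consL s (act A T .neg k x) = _
        rw [h5, h6, map_add, map_smul, map_smul, consL_e]

theorem op_circle (hA : A ≠ 0) {k : ℕ} {x : List St} {r' : Row}
    (h : next k .cup (x.map St.ty) = some r') :
    op A T [(k, .cup), (k, .cap)] (e x) = (-A ^ 2 - A⁻¹ ^ 2) • e x := by
  induction k generalizing x r' with
  | zero =>
    simp only [op_cons, op_nil, lin_e, act, base, capOp, cupOp, map_add,
      map_smul, smul_smul, smul_add, map_zero, smul_zero, add_zero]
    match_scalars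
    field_simp
    ring
  | succ k ih =>
    rcases x with _ | ⟨s, x⟩
    · simp [next] at h
    · simp only [List.map_cons, next, Option.map_eq_some_iff] at h
      obtain ⟨r3, h3, rfl⟩ := h
      have h6 : op A T [(k + 1, .cup), (k + 1, .cap)] (e (s :: x)) =
          consL s (op A T [(k, .cup), (k, .cap)] (e x)) := by
        rw [← consL_e]
        exact op_up (A := A) (T := T) [(k, .cup), (k, .cap)] s (e x)
      rw [h6, ih h3, map_smul, consL_e]

/-- the scalar of the meridian of a fixed strand -/
def lam (A T : F) : F := -(A ^ 2 * T ^ 2 + A⁻¹ ^ 2 * T⁻¹ ^ 2)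

theorem op_loop0 (hA : A ≠ 0) (hT : T ≠ 0) (n : ℤ) (x : List St) :
    op A T (loop 0) (e (.k n :: x)) = lam A T • e (.k n :: x) := by
  have z3 : ∀ m : ℤ, A ^ (2 * m) ≠ 0 := fun m => zpow_ne_zero _ hA
  unfold loop
  simp only [zero_add, op_cons, op_nil, lin_e, act, base, crossPos, crossNeg, capOp, cupOp,
    consL_e, beta, map_add, map_smul, smul_smul, smul_add, map_zero, smul_zero, add_zero, lam,
    zp1 hA, zp2 hA, sub_add_cancel, add_sub_cancel_right, zero_add]
  match_scalars <;> field_simp [z3] <;> ring

theorem op_loop (hA : A ≠ 0) (hT : T ≠ 0) {j : ℕ} {x : List St}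
    (h : j < (x.map St.ty).count true) :
    op A T (loop (place j (x.map St.ty))) (e x) = lam A T • e x := by
  induction x generalizing j with
  | nil => simp at h
  | cons s x ih =>
    rcases s with b | n
    · have h1 : place j ((St.o b :: x).map St.ty) = place j (x.map St.ty) + 1 := by
        simp only [List.map_cons, St.ty]
        exact place_false j _
      rw [h1, ← up_loop, ← consL_e, op_up, ih (by simpa [St.ty] using h), map_smul]
    · rcases j with _ | j
      · exact op_loop0 hA hT n x
      · have h1 : place (j + 1) ((St.k n :: x).map St.ty) = place j (x.map St.ty) + 1 := rfl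
        rw [h1, ← up_loop, ← consL_e, op_up, ih (by simpa [St.ty] using h), map_smul]

theorem g_loop (hA : A ≠ 0) (hT : T ≠ 0) {j : ℕ} {r : Row} {w : Word}
    (h : j < r.count true) (d : ℤ) :
    g A T r (loop (place j r) ++ w) d = lam A T * g A T r w d := by
  have := g_replace (A := A) (T := T) (Finset.univ : Finset Unit)
    (fun _ => lam A T) (fun _ => [])
    (r := r) (r1 := r) (r2 := r) (r3 := r) (U := []) (X := loop (place j r)) (W := w) rfl
    (by
      intro x hx
      subst hx
      simpa using op_loop (A := A) (T := T) hA hT h) d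
  simpa using this

theorem consL_apply (s : St) (v : List St →₀ F) (x : List St) : consL s v (s :: x) = v x := by
  unfold consL
  rw [lmapDomain_apply, mapDomain_apply (List.cons_injective)]

theorem g_strand {r : Row} {w : Word} (d : ℤ) :
    g A T (false :: r) (up w) d = g A T r w (d + 1) + g A T r w (d - 1) := by
  have hS : SF (false :: r) d = (SF r (d + 1)).image (List.cons (St.o false)) ∪
      (SF r (d - 1)).image (List.cons (St.o true)) := by
    ext x
    simp only [Finset.mem_union, Finset.mem_image, mem_SF]
    constructor
    · rintro ⟨h1, h2, h3⟩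
      rcases x with _ | ⟨s, x⟩
      · simp at h1
      · rcases s with (_ | _) | n
        · left
          refine ⟨x, ⟨?_, fun t ht => h2 t (List.mem_cons_of_mem _ ht), ?_⟩, rfl⟩
          · simpa [St.ty] using h1
          · simp [St.deg] at h3; omega
        · right
          refine ⟨x, ⟨?_, fun t ht => h2 t (List.mem_cons_of_mem _ ht), ?_⟩, rfl⟩
          · simpa [St.ty] using h1
          · simp [St.deg] at h3; omega
        · simp [St.ty] at h1
    · rintro (⟨x, ⟨h1, h2, h3⟩, rfl⟩ | ⟨x, ⟨h1, h2, h3⟩, rfl⟩)
      · refine S_intro (by simp [St.ty, h1]) (by simpa [St.ok] using h2) (by simp [St.deg, h3])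
      · refine S_intro (by simp [St.ty, h1]) (by simpa [St.ok] using h2) (by simp [St.deg, h3])
  unfold g
  rw [hS, Finset.sum_union, Finset.sum_image, Finset.sum_image]
  · congr 1
    · apply Finset.sum_congr rfl
      intro x _
      rw [← consL_e, op_up, consL_apply]
    · apply Finset.sum_congr rfl
      intro x _
      rw [← consL_e, op_up, consL_apply]
  · intro x _ y _ h
    simpa using h
  · intro x _ y _ h
    simpa using h
  · rw [Finset.disjoint_left]
    intro x hx hy
    simp only [Finset.mem_image] at hx hy
    obtain ⟨y, _, rfl⟩ := hx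
    obtain ⟨z, _, hz⟩ := hy
    simp at hz

/-! ### the functional -/

variable [Algebra QA F]

/-- the invariant of framed links -/
noncomputable def inv (hA : A ≠ 0) (hT : T ≠ 0) : FramedLink → (ℤ → F) :=
  Quot.lift (gD A T) fun _ _ h => gD_step hA hT h

/-- the linear extension of the invariant -/
noncomputable def phi (hA : A ≠ 0) (hT : T ≠ 0) : (FramedLink →₀ QA) →ₗ[QA] (ℤ → F) :=
  Finsupp.linearCombination QA (inv hA hT)

theorem phi_link (hA : A ≠ 0) (hT : T ≠ 0) {r : Row} {w : Word} (h : run r w = some r)
    (h2 : r.count true = 2) : phi hA hT (link r w) = g A T r w := by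
  unfold phi
  conv_lhs => rw [link, dif_pos ⟨h, h2⟩]
  rw [Finsupp.linearCombination_single, one_smul]
  rfl

theorem smul_fun (a : QA) (f : ℤ → F) (d : ℤ) : (a • f) d = algebraMap QA F a * f d := by
  rw [Pi.smul_apply, Algebra.smul_def]

theorem phi_relation (hA : A ≠ 0) (hT : T ≠ 0) (hv : algebraMap QA F varA = A)
    {x : FramedLink →₀ QA} (h : Relation x) : phi hA hT x = 0 := by
  have hvi : algebraMap QA F varA⁻¹ = A⁻¹ := by rw [map_inv₀, hv]
  induction h with
  | pos r U V k h =>
    by_cases hc : r.count true = 2
    · obtain ⟨h1, h2, h3⟩ := smooth_valid h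
      obtain ⟨r2, h4, h5⟩ := runAppend_some h
      obtain ⟨r1, h6, h7⟩ := runAppend_some h4
      simp only [run, Option.bind_eq_some_iff] at h7
      obtain ⟨r3, h7, -⟩ := h7
      rw [map_sub, map_add, map_smul, map_smul, phi_link hA hT h1 hc, phi_link hA hT h3 hc,
        phi_link hA hT h hc, sub_eq_zero]
      funext d
      rw [Pi.add_apply, smul_fun, smul_fun, hv, hvi]
      have := g_replace (A := A) (T := T) (Finset.univ : Finset Bool)
        (fun b => if b then A else A⁻¹) (fun b => if b then [] else [(k, .cap), (k, .cup)])
        (r := r) (r1 := r1) (r2 := r1) (r3 := r1) (U := U) (X := [(k, .pos)]) (W := V) h6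
        (by
          intro x hx
          subst hx
          rw [Fintype.sum_bool]
          simpa using (act_smooth (A := A) (T := T) hA h7).1) d
      rw [Fintype.sum_bool] at this
      simpa using this
    · simp [link_of_count _ hc]
  | neg r U V k h =>
    by_cases hc : r.count true = 2
    · obtain ⟨h1, h2, h3⟩ := smooth_valid h
      obtain ⟨r2, h4, h5⟩ := runAppend_some h
      obtain ⟨r1, h6, h7⟩ := runAppend_some h4
      simp only [run, Option.bind_eq_some_iff] at h7
      obtain ⟨r3, h7, -⟩ := h7
      rw [map_sub, map_add, map_smul, map_smul, phi_link hA hT h2 hc, phi_link hA hT h3 hc,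
        phi_link hA hT h hc, sub_eq_zero]
      funext d
      rw [Pi.add_apply, smul_fun, smul_fun, hv, hvi]
      have := g_replace (A := A) (T := T) (Finset.univ : Finset Bool)
        (fun b => if b then A⁻¹ else A) (fun b => if b then [] else [(k, .cap), (k, .cup)])
        (r := r) (r1 := r1) (r2 := r1) (r3 := r1) (U := U) (X := [(k, .neg)]) (W := V) h6
        (by
          intro x hx
          subst hx
          rw [Fintype.sum_bool]
          simpa using (act_smooth (A := A) (T := T) hA h7).2) d
      rw [Fintype.sum_bool] at this
      simpa using this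
    · simp [link_of_count _ hc]
  | circle r U V k h =>
    by_cases hc : r.count true = 2
    · have h3 := circle_valid h
      obtain ⟨r2, h4, h5⟩ := runAppend_some h
      obtain ⟨r1, h6, h7⟩ := runAppend_some h4
      simp only [run, Option.bind_eq_some_iff] at h7
      obtain ⟨r3, h7, -⟩ := h7
      rw [map_sub, map_smul, phi_link hA hT h3 hc, phi_link hA hT h hc, sub_eq_zero]
      funext d
      rw [smul_fun, map_sub, map_neg, map_pow, map_pow, hv, hvi]
      have := g_replace (A := A) (T := T) (Finset.univ : Finset Unit)
        (fun _ => -A ^ 2 - A⁻¹ ^ 2) (fun _ => [])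
        (r := r) (r1 := r1) (r2 := r1) (r3 := r1) (U := U) (X := [(k, .cup), (k, .cap)])
        (W := V) h6
        (by
          intro x hx
          subst hx
          simpa using op_circle (A := A) (T := T) hA h7) d
      simpa using this
    · simp [link_of_count _ hc]

theorem relations_le_ker (hA : A ≠ 0) (hT : T ≠ 0) (hv : algebraMap QA F varA = A) :
    relations ≤ LinearMap.ker (phi hA hT) := by
  unfold relations
  rw [Submodule.span_le]
  intro x hx
  exact phi_relation hA hT hv hx

/-- the functional on the skein module -/
noncomputable def Phi (hA : A ≠ 0) (hT : T ≠ 0) (hv : algebraMap QA F varA = A) :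
    SkeinModule →ₗ[QA] (ℤ → F) :=
  relations.liftQ (phi hA hT) (relations_le_ker hA hT hv)

end

end Pool.Agent.R804.Ext
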