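import Pool.Agent.R804.Ext.Defs

/-!
# The operators of diagrams

The strands of `J` carry the two-dimensional representation, the fixed strands a Verma module of
`U_q(sl_2)` with highest weight given by the parameter `T`.
-/

set_option autoImplicit false

namespace Pool.Agent.R804.Ext

open Finsupp

/-- states of a strand -/
inductive St where
  | o (b : Bool)
  | k (n : ℤ)
  deriving DecidableEq

/-- type of the strand -/
def St.ty : St → Bool
  | .o _ => false
  | .k _ => true

section Ops

variable {F : Type*} [Field F] (A T : F)

/-- basis vector -/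
noncomputable def e (x : List St) : List St →₀ F := single x 1

/-- put a strand on the left -/
noncomputable def consL (s : St) : (List St →₀ F) →ₗ[F] (List St →₀ F) :=
  lmapDomain F F (List.cons s)

@[simp] theorem consL_e (s : St) (x : List St) : consL s (e x : List St →₀ F) = e (s :: x) := by
  simp [consL, e]

/-- matrix coefficient of the raising operator -/
def beta (n : ℤ) : F := (A ^ (2 * n) - (A ^ (2 * n))⁻¹) * (T - T⁻¹ ^ 3 * (A ^ (2 * n)) ^ 2 * A⁻¹ ^ 4)

/-- the operator of a crossing of two strands, on basis states -/
noncomputable def crossPos : St → St → List St → (List St →₀ F)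
  | .o false, .o false, x => A • e (.o false :: .o false :: x)
  | .o true, .o true, x => A • e (.o true :: .o true :: x)
  | .o false, .o true, x => A⁻¹ • e (.o true :: .o false :: x)
  | .o true, .o false, x => A⁻¹ • e (.o false :: .o true :: x) +
      (A - A⁻¹ ^ 3) • e (.o true :: .o false :: x)
  | .o false, .k n, x => (T * (A ^ (2 * n))⁻¹) • e (.k n :: .o false :: x)
  | .o true, .k n, x => (T⁻¹ * A ^ (2 * n)) • e (.k n :: .o true :: x) +
      (T * (A ^ (2 * n))⁻¹ * A⁻¹ ^ 2) • e (.k (n + 1) :: .o false :: x)
  | .k n, .o false, x => (T * (A ^ (2 * n))⁻¹) • e (.o false :: .k n :: x) +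
      beta A T n • e (.o true :: .k (n - 1) :: x)
  | .k n, .o true, x => (T⁻¹ * A ^ (2 * n)) • e (.o true :: .k n :: x)
  | .k _, .k _, _ => 0

/-- the operator of the other crossing -/
noncomputable def crossNeg : St → St → List St → (List St →₀ F)
  | .o false, .o false, x => A⁻¹ • e (.o false :: .o false :: x)
  | .o true, .o true, x => A⁻¹ • e (.o true :: .o true :: x)
  | .o false, .o true, x => A • e (.o true :: .o false :: x) +
      (A⁻¹ - A ^ 3) • e (.o false :: .o true :: x)
  | .o true, .o false, x => A • e (.o false :: .o true :: x)
  | .o true, .k n, x => (T * (A ^ (2 * n))⁻¹) • e (.k n :: .o true :: x)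
  | .o false, .k n, x => (T⁻¹ * A ^ (2 * n)) • e (.k n :: .o false :: x) +
      (-(A ^ 2 * beta A T n)) • e (.k (n - 1) :: .o true :: x)
  | .k n, .o false, x => (T⁻¹ * A ^ (2 * n)) • e (.o false :: .k n :: x)
  | .k n, .o true, x => (T * (A ^ (2 * n))⁻¹) • e (.o true :: .k n :: x) +
      (-(T * (A ^ (2 * n))⁻¹)) • e (.o false :: .k (n + 1) :: x)
  | .k _, .k _, _ => 0

/-- the operator of a local maximum -/
noncomputable def capOp : St → St → List St → (List St →₀ F)
  | .o false, .o true, x => (1 : F) • e x
  | .o true, .o false, x => (-A⁻¹ ^ 2) • e x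
  | _, _, _ => 0

/-- the operator of a local minimum -/
noncomputable def cupOp (x : List St) : List St →₀ F :=
  (-A ^ 2) • e (.o false :: .o true :: x) + (1 : F) • e (.o true :: .o false :: x)

/-- the operator of a piece at the left end of a row -/
noncomputable def base : Piece → List St → (List St →₀ F)
  | .cup, x => cupOp A x
  | .cap, s :: t :: x => capOp A s t x
  | .pos, s :: t :: x => crossPos A T s t x
  | .neg, s :: t :: x => crossNeg A T s t x
  | _, _ => 0

/-- the operator of a piece with `k` strands on its left, on a basis state -/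
noncomputable def act (p : Piece) : ℕ → List St → (List St →₀ F)
  | 0, x => base A T p x
  | k + 1, s :: x => consL s (act p k x)
  | _ + 1, [] => 0

/-- the operator of a piece with `k` strands on its left -/
noncomputable def lin (k : ℕ) (p : Piece) : (List St →₀ F) →ₗ[F] (List St →₀ F) :=
  linearCombination F (act A T p k)

@[simp] theorem lin_e (k : ℕ) (p : Piece) (x : List St) : lin A T k p (e x) = act A T p k x := by
  simp [lin, e]

/-- the operator of a word -/
noncomputable def op : Word → ((List St →₀ F) →ₗ[F] (List St →₀ F))
  | [] => LinearMap.id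
  | (k, p) :: w => (op w).comp (lin A T k p)

variable {A T}

@[simp] theorem op_nil (v : List St →₀ F) : op A T [] v = v := rfl

@[simp] theorem op_cons (k : ℕ) (p : Piece) (w : Word) (v : List St →₀ F) :
    op A T ((k, p) :: w) v = op A T w (lin A T k p v) := rfl

theorem op_append (u w : Word) (v : List St →₀ F) :
    op A T (u ++ w) v = op A T w (op A T u v) := by
  induction u generalizing v with
  | nil => rfl
  | cons l u ih =>
    obtain ⟨k, p⟩ := l
    rw [List.cons_append, op_cons, op_cons, ih]

/-- two linear maps agree if they agree on the basis -/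
theorem ext_e {M : Type*} [AddCommMonoid M] [Module F M] {f g : (List St →₀ F) →ₗ[F] M}
    (h : ∀ x, f (e x) = g (e x)) : f = g := by
  apply Finsupp.lhom_ext'
  intro x
  apply LinearMap.ext_ring
  exact h x

theorem lin_succ (p : Piece) (k : ℕ) (s : St) (v : List St →₀ F) :
    lin A T (k + 1) p (consL s v) = consL s (lin A T k p v) := by
  have : (lin A T (k + 1) p).comp (consL s) = (consL s).comp (lin A T k p) := by
    apply ext_e
    intro x
    simp [act]
  exact LinearMap.congr_fun this v

theorem op_up (w : Word) (s : St) (v : List St →₀ F) :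
    op A T (up w) (consL s v) = consL s (op A T w v) := by
  induction w generalizing v with
  | nil => rfl
  | cons l w ih =>
    obtain ⟨k, p⟩ := l
    change op A T ((k + 1, p) :: up w) _ = _
    rw [op_cons, lin_succ, ih, op_cons]

end Ops

end Pool.Agent.R804.Ext
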