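import Pool.Agent.R804.Ext.Defs

/-!
# Sliding a meridian along a fixed strand
-/

set_option autoImplicit false
set_option linter.unusedSimpArgs false

namespace Pool.Agent.R804.Ext

/-- the meridian loop around the strand with `k` strands on its left -/
def loop (k : ℕ) : Word := [(k + 1, .cup), (k, .neg), (k, .neg), (k + 1, .cap)]

/-- the number of strands on the left of the fixed strand `L_{j+1}` -/
def place : ℕ → Row → ℕ
  | _, [] => 0
  | j, false :: r => place j r + 1
  | 0, true :: _ => 0
  | j + 1, true :: r => place j r + 1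

theorem runAppend {r : Row} {u w : Word} :
    run r (u ++ w) = (run r u).bind fun r' => run r' w := by
  induction u generalizing r with
  | nil => rfl
  | cons l u ih =>
    obtain ⟨k, p⟩ := l
    simp only [List.cons_append, run]
    cases next k p r with
    | none => rfl
    | some r' => exact ih

theorem runAppend_of {r r1 : Row} {u w : Word} (h : run r u = some r1) :
    run r (u ++ w) = run r1 w := by
  rw [runAppend, h]; rfl

theorem runAppend_some {r r' : Row} {u w : Word} (h : run r (u ++ w) = some r') :
    ∃ r'', run r u = some r'' ∧ run r'' w = some r' := by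
  rw [runAppend, Option.bind_eq_some_iff] at h
  exact h

theorem runUp {r : Row} {b : Bool} (w : Word) : run (b :: r) (up w) =
    (run r w).map fun r' => b :: r' := by
  induction w generalizing r with
  | nil => rfl
  | cons l w ih =>
    obtain ⟨k, p⟩ := l
    change run (b :: r) ((k + 1, p) :: up w) = _
    simp only [run, next]
    cases h : next k p r with
    | none => simp
    | some r' => simp [ih]

theorem up_append (u w : Word) : up (u ++ w) = up u ++ up w := by simp [up]

/-- one local move between valid words from `r` to `r'` -/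
def Loc (r r' : Row) (X Y : Word) : Prop :=
  run r X = some r' ∧ run r Y = some r' ∧
    ∃ U V X' Y' : Word, Move X' Y' ∧ X = U ++ X' ++ V ∧ Y = U ++ Y' ++ V

/-- isotopy of tangle diagrams -/
def Iso (r r' : Row) : Word → Word → Prop := Relation.EqvGen (Loc r r')

theorem Iso.refl' {r r' : Row} (X : Word) : Iso r r' X X := Relation.EqvGen.refl X

theorem Iso.symm' {r r' : Row} {X Y : Word} (h : Iso r r' X Y) : Iso r r' Y X :=
  Relation.EqvGen.symm _ _ h

theorem Iso.trans' {r r' : Row} {X Y Z : Word} (h : Iso r r' X Y) (h' : Iso r r' Y Z) :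
    Iso r r' X Z := Relation.EqvGen.trans _ _ _ h h'

theorem Iso.of {r r' : Row} {X Y : Word} (hm : Move X Y) (hX : run r X = some r')
    (hY : run r Y = some r') : Iso r r' X Y :=
  Relation.EqvGen.rel _ _ ⟨hX, hY, [], [], X, Y, hm, by simp, by simp⟩

theorem Iso.valid {r r' : Row} {X Y : Word} (h : Iso r r' X Y) :
    run r X = some r' ↔ run r Y = some r' := by
  induction h with
  | rel X Y h => exact ⟨fun _ => h.2.1, fun _ => h.1⟩
  | refl X => exact Iff.rfl
  | symm X Y _ ih => exact ih.symm
  | trans X Y Z _ _ ih1 ih2 => exact ih1.trans ih2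

theorem Iso.up' {r r' : Row} {X Y : Word} (b : Bool) (h : Iso r r' X Y) :
    Iso (b :: r) (b :: r') (up X) (up Y) := by
  induction h with
  | rel X Y h =>
    obtain ⟨h1, h2, U, V, X', Y', hm, rfl, rfl⟩ := h
    apply Relation.EqvGen.rel
    refine ⟨by rw [runUp, h1]; rfl, by rw [runUp, h2]; rfl, up U, up V, up X', up Y',
      .right _ _ hm, by simp [up_append], by simp [up_append]⟩
  | refl X => exact Relation.EqvGen.refl _
  | symm X Y _ ih => exact ih.symm'
  | trans X Y Z _ _ ih1 ih2 => exact ih1.trans' ih2

theorem Iso.ctx {r0 r r' r1 : Row} {X Y U V : Word} (h : Iso r r' X Y)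
    (hU : run r0 U = some r) (hV : run r' V = some r1) :
    Iso r0 r1 (U ++ X ++ V) (U ++ Y ++ V) := by
  induction h with
  | rel X Y h =>
    obtain ⟨h1, h2, U', V', X', Y', hm, rfl, rfl⟩ := h
    apply Relation.EqvGen.rel
    refine ⟨?_, ?_, U ++ U', V' ++ V, X', Y', hm, by simp, by simp⟩
    · rw [List.append_assoc, runAppend_of hU, runAppend_of h1, hV]
    · rw [List.append_assoc, runAppend_of hU, runAppend_of h2, hV]
  | refl X => exact Relation.EqvGen.refl _
  | symm X Y _ ih => exact ih.symm'
  | trans X Y Z _ _ ih1 ih2 => exact ih1.trans' ih2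

theorem Iso.pre {r0 r r1 : Row} {X Y U : Word} (h : Iso r r1 X Y)
    (hU : run r0 U = some r) : Iso r0 r1 (U ++ X) (U ++ Y) := by
  simpa using h.ctx (V := []) hU rfl

theorem Iso.post {r r' r1 : Row} {X Y V : Word} (h : Iso r r' X Y)
    (hV : run r' V = some r1) : Iso r r1 (X ++ V) (Y ++ V) := by
  simpa using h.ctx (U := []) rfl hV

/-- isotopic diagrams represent the same link -/
theorem link_iso {r : Row} {X Y : Word} (h : Iso r r X Y) : link r X = link r Y := by
  induction h with
  | rel X Y h =>
    obtain ⟨h1, h2, U, V, X', Y', hm, hX, hY⟩ := h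
    unfold link
    by_cases hc : r.count true = 2
    · rw [dif_pos ⟨h1, hc⟩, dif_pos ⟨h2, hc⟩]
      congr 1
      apply Quot.sound
      exact Or.inl ⟨rfl, U, V, X', Y', hm, hX, hY⟩
    · rw [dif_neg fun h => hc h.2, dif_neg fun h => hc h.2]
  | refl X => rfl
  | symm X Y _ ih => exact ih.symm
  | trans X Y Z _ _ ih1 ih2 => exact ih1.trans ih2

theorem first_cross {p : Piece} (hp : p = .pos ∨ p = .neg) {r r' : Row}
    (h : first p r = some r') : ∃ x y r1, r = x :: y :: r1 ∧ r' = y :: x :: r1 ∧
      ¬(x = true ∧ y = true) := by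
  rcases r with _ | ⟨x, _ | ⟨y, r⟩⟩
  · rcases hp with rfl | rfl <;> simp [first] at h
  · rcases hp with rfl | rfl <;> cases x <;> simp [first] at h
  · refine ⟨x, y, r, rfl, ?_, ?_⟩
    · rcases hp with rfl | rfl <;> cases x <;> cases y <;> simp [first] at h <;> simp [h]
    · rcases hp with rfl | rfl <;> cases x <;> cases y <;> simp [first] at h ⊢

theorem run_exchange (p q : Piece) (l : ℕ) (r : Row) :
    run r [(0, p), (l + p.high, q)] = run r [(l + p.low, q), (0, p)] := by
  rcases p with _ | _ | _ | _
  · simp only [Piece.high, Piece.low, run, next, first, Option.bind_some, add_zero]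
    cases next l q r <;> simp
  · rcases r with _ | ⟨_ | _, _ | ⟨_ | _, r⟩⟩
    all_goals simp [Piece.high, Piece.low, run, next, first]
    all_goals cases next l q r <;> simp [first]
  · rcases r with _ | ⟨_ | _, _ | ⟨_ | _, r⟩⟩
    all_goals simp [Piece.high, Piece.low, run, next, first]
    all_goals cases next l q r <;> simp [first]
  · rcases r with _ | ⟨_ | _, _ | ⟨_ | _, r⟩⟩
    all_goals simp [Piece.high, Piece.low, run, next, first]
    all_goals cases next l q r <;> simp [first]

theorem Iso.exch (p q : Piece) (l : ℕ) {r r' : Row}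
    (h : run r [(0, p), (l + p.high, q)] = some r') :
    Iso r r' [(0, p), (l + p.high, q)] [(l + p.low, q), (0, p)] :=
  Iso.of (.exchange p q l) h (by rw [← run_exchange, h])

/-- move a word `n` strands to the right -/
def shift (n : ℕ) (w : Word) : Word := w.map fun l => (l.1 + n, l.2)

/-- a piece on the left of a word commutes with it -/
theorem far (p : Piece) (w : Word) {r r' : Row}
    (h : run r ([(0, p)] ++ shift p.high w) = some r') :
    Iso r r' (shift p.low w ++ [(0, p)]) ([(0, p)] ++ shift p.high w) := by
  induction w generalizing r with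
  | nil => exact Iso.refl' _
  | cons a w ih =>
    obtain ⟨l, q⟩ := a
    have h0 : [(0, p)] ++ shift p.high ((l, q) :: w) =
        [(0, p), (l + p.high, q)] ++ shift p.high w := rfl
    have h1 : shift p.low ((l, q) :: w) ++ [(0, p)] =
        [(l + p.low, q)] ++ (shift p.low w ++ [(0, p)]) := rfl
    rw [h0] at h ⊢
    rw [h1]
    obtain ⟨r2, h2, h3⟩ := runAppend_some h
    have h4 := h2
    rw [run_exchange, show [(l + p.low, q), (0, p)] = [(l + p.low, q)] ++ [(0, p)] from rfl] at h4
    obtain ⟨r3, h5, h6⟩ := runAppend_some h4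
    have h7 : run r3 ([(0, p)] ++ shift p.high w) = some r' := by
      rw [runAppend_of h6, h3]
    refine ((ih h7).pre h5).trans' ?_
    have := ((Iso.exch p q l h2).post h3).symm'
    simpa using this

theorem loop_far (p : Piece) (k : ℕ) {r r' : Row}
    (h : run r ([(0, p)] ++ loop (k + p.high)) = some r') :
    Iso r r' (loop (k + p.low) ++ [(0, p)]) ([(0, p)] ++ loop (k + p.high)) := by
  have e1 : ∀ n, shift n (loop k) = loop (k + n) := by
    intro n
    simp only [shift, loop, List.map_cons, List.map_nil]
    rw [show k + 1 + n = k + n + 1 by ring]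
  have := far p (loop k) (r := r) (r' := r') (by rw [e1]; exact h)
  rwa [e1, e1] at this

end Pool.Agent.R804.Ext
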