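import Pool.Agent.R804.Ext.Slide

set_option autoImplicit false
set_option linter.unusedSimpArgs false
set_option linter.unusedVariables false

namespace Pool.Agent.R804.Ext

theorem Iso.mk' {r r' : Row} (U V : Word) {X Y : Word} (hm : Move X Y)
    (hX : run r (U ++ X ++ V) = some r') (hY : run r (U ++ Y ++ V) = some r') :
    Iso r r' (U ++ X ++ V) (U ++ Y ++ V) :=
  Relation.EqvGen.rel _ _ ⟨hX, hY, U, V, X, Y, hm, rfl, rfl⟩

/-- a piece on the right commutes with the loop -/
theorem loop_near (p : Piece) (i : ℕ) {r r' : Row} (h : next i p r = some r') :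
    Iso (true :: r) (true :: r') (loop 0 ++ [(i + 1, p)]) ([(i + 1, p)] ++ loop 0) := by
  have s1 : Iso (true :: false :: false :: r) (true :: r') [(1, .cap), (i + 1, p)]
      [(i + 3, p), (1, .cap)] :=
    (Iso.exch .cap p i (r := false :: false :: r) (r' := r')
      (by simp [run, next, first, h, Piece.high])).up' true
  have s2 : Iso (false :: true :: false :: r) (true :: false :: false :: r')
      [(0, .neg), (i + 3, p)] [(i + 3, p), (0, .neg)] :=
    Iso.exch .neg p (i + 1) (by simp [run, next, first, h, Piece.high])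
  have s3 : Iso (true :: false :: false :: r) (false :: true :: false :: r')
      [(0, .neg), (i + 3, p)] [(i + 3, p), (0, .neg)] :=
    Iso.exch .neg p (i + 1) (by simp [run, next, first, h, Piece.high])
  have s4 : Iso (true :: r) (true :: false :: false :: r') [(1, .cup), (i + 3, p)]
      [(i + 1, p), (1, .cup)] :=
    (Iso.exch .cup p i (r := r) (r' := false :: false :: r')
      (by simp [run, next, first, h, Piece.high])).up' true
  have t1 := s1.pre (r0 := true :: r) (U := [(1, .cup), (0, .neg), (0, .neg)]) rfl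
  have t2 := s2.ctx (r0 := true :: r) (r1 := true :: r') (U := [(1, .cup), (0, .neg)])
    (V := [(1, .cap)]) rfl rfl
  have t3 := s3.ctx (r0 := true :: r) (r1 := true :: r') (U := [(1, .cup)])
    (V := [(0, .neg), (1, .cap)]) rfl rfl
  have t4 := s4.post (r1 := true :: r') (V := [(0, .neg), (0, .neg), (1, .cap)]) rfl
  exact ((t1.trans' t2).trans' t3).trans' t4

theorem braid_pos (x y z : Bool) (t : Row) (h : ¬(x = true ∧ y = true))
    (h' : ¬(x = true ∧ z = true)) (h'' : ¬(y = true ∧ z = true)) :
    Iso (x :: y :: z :: t) (z :: y :: x :: t) [(0, .neg), (1, .pos), (0, .pos)]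
      [(1, .pos), (0, .pos), (1, .neg)] := by
  have c1 : Iso (x :: y :: z :: t) (z :: y :: x :: t)
      [(0, .neg), (1, .pos), (0, .pos), (1, .pos), (1, .neg)]
      [(0, .neg), (1, .pos), (0, .pos)] := by
    cases x <;> cases y <;> cases z <;> simp at h h' h'' <;>
    exact Iso.mk' [(0, .neg), (1, .pos), (0, .pos)] [] (.right _ _ .r2PosNeg) rfl rfl
  have c2 : Iso (x :: y :: z :: t) (z :: y :: x :: t)
      [(0, .neg), (0, .pos), (1, .pos), (0, .pos), (1, .neg)]
      [(0, .neg), (1, .pos), (0, .pos), (1, .pos), (1, .neg)] := by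
    cases x <;> cases y <;> cases z <;> simp at h h' h'' <;>
    exact Iso.mk' [(0, .neg)] [(1, .neg)] .r3 rfl rfl
  have c3 : Iso (x :: y :: z :: t) (z :: y :: x :: t)
      [(0, .neg), (0, .pos), (1, .pos), (0, .pos), (1, .neg)]
      [(1, .pos), (0, .pos), (1, .neg)] := by
    cases x <;> cases y <;> cases z <;> simp at h h' h'' <;>
    exact Iso.mk' [] [(1, .pos), (0, .pos), (1, .neg)] .r2NegPos rfl rfl
  exact c1.symm'.trans' (c2.symm'.trans' c3)

theorem braid_neg (x y z : Bool) (t : Row) (h : ¬(x = true ∧ y = true))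
    (h' : ¬(x = true ∧ z = true)) (h'' : ¬(y = true ∧ z = true)) :
    Iso (x :: y :: z :: t) (z :: y :: x :: t) [(0, .neg), (1, .neg), (0, .neg)]
      [(1, .neg), (0, .neg), (1, .neg)] := by
  -- insert cancelling pairs
  have c1 : Iso (x :: y :: z :: t) (z :: y :: x :: t)
      [(0, .neg), (1, .neg), (0, .neg), (1, .pos), (1, .neg)]
      [(0, .neg), (1, .neg), (0, .neg)] := by
    cases x <;> cases y <;> cases z <;> simp at h h' h'' <;>
    exact Iso.mk' [(0, .neg), (1, .neg), (0, .neg)] [] (.right _ _ .r2PosNeg) rfl rfl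
  have c2 : Iso (x :: y :: z :: t) (z :: y :: x :: t)
      [(0, .neg), (1, .neg), (0, .neg), (1, .pos), (0, .pos), (0, .neg), (1, .neg)]
      [(0, .neg), (1, .neg), (0, .neg), (1, .pos), (1, .neg)] := by
    cases x <;> cases y <;> cases z <;> simp at h h' h'' <;>
    exact Iso.mk' [(0, .neg), (1, .neg), (0, .neg), (1, .pos)] [(1, .neg)] .r2PosNeg rfl rfl
  have c3 : Iso (x :: y :: z :: t) (z :: y :: x :: t)
      [(0, .neg), (1, .neg), (0, .neg), (1, .pos), (0, .pos), (1, .pos), (1, .neg), (0, .neg),
        (1, .neg)]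
      [(0, .neg), (1, .neg), (0, .neg), (1, .pos), (0, .pos), (0, .neg), (1, .neg)] := by
    cases x <;> cases y <;> cases z <;> simp at h h' h'' <;>
    exact Iso.mk' [(0, .neg), (1, .neg), (0, .neg), (1, .pos), (0, .pos)] [(0, .neg), (1, .neg)]
      (.right _ _ .r2PosNeg) rfl rfl
  have c4 : Iso (x :: y :: z :: t) (z :: y :: x :: t)
      [(0, .neg), (1, .neg), (0, .neg), (0, .pos), (1, .pos), (0, .pos), (1, .neg), (0, .neg),
        (1, .neg)]
      [(0, .neg), (1, .neg), (0, .neg), (1, .pos), (0, .pos), (1, .pos), (1, .neg), (0, .neg),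
        (1, .neg)] := by
    cases x <;> cases y <;> cases z <;> simp at h h' h'' <;>
    exact Iso.mk' [(0, .neg), (1, .neg), (0, .neg)] [(1, .neg), (0, .neg), (1, .neg)]
      .r3 rfl rfl
  have c5 : Iso (x :: y :: z :: t) (z :: y :: x :: t)
      [(0, .neg), (1, .neg), (0, .neg), (0, .pos), (1, .pos), (0, .pos), (1, .neg), (0, .neg),
        (1, .neg)]
      [(0, .neg), (1, .neg), (1, .pos), (0, .pos), (1, .neg), (0, .neg), (1, .neg)] := by
    cases x <;> cases y <;> cases z <;> simp at h h' h'' <;>
    exact Iso.mk' [(0, .neg), (1, .neg)] [(1, .pos), (0, .pos), (1, .neg), (0, .neg), (1, .neg)]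
      .r2NegPos rfl rfl
  have c6 : Iso (x :: y :: z :: t) (z :: y :: x :: t)
      [(0, .neg), (1, .neg), (1, .pos), (0, .pos), (1, .neg), (0, .neg), (1, .neg)]
      [(0, .neg), (0, .pos), (1, .neg), (0, .neg), (1, .neg)] := by
    cases x <;> cases y <;> cases z <;> simp at h h' h'' <;>
    exact Iso.mk' [(0, .neg)] [(0, .pos), (1, .neg), (0, .neg), (1, .neg)]
      (.right _ _ .r2NegPos) rfl rfl
  have c7 : Iso (x :: y :: z :: t) (z :: y :: x :: t)
      [(0, .neg), (0, .pos), (1, .neg), (0, .neg), (1, .neg)]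
      [(1, .neg), (0, .neg), (1, .neg)] := by
    cases x <;> cases y <;> cases z <;> simp at h h' h'' <;>
    exact Iso.mk' [] [(1, .neg), (0, .neg), (1, .neg)] .r2NegPos rfl rfl
  exact c1.symm'.trans' (c2.symm'.trans' (c3.symm'.trans' (c4.symm'.trans'
    (c5.trans' (c6.trans' c7)))))

theorem braid (p : Piece) (hp : p = .pos ∨ p = .neg) (x y z : Bool) (t : Row)
    (h : ¬(x = true ∧ y = true)) (h' : ¬(x = true ∧ z = true)) (h'' : ¬(y = true ∧ z = true)) :
    Iso (x :: y :: z :: t) (z :: y :: x :: t) [(0, .neg), (1, p), (0, p)]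
      [(1, p), (0, p), (1, .neg)] := by
  rcases hp with rfl | rfl
  · exact braid_pos x y z t h h' h''
  · exact braid_neg x y z t h h' h''

/-- a strand passing over or under a local maximum -/
theorem capPass (p : Piece) (hp : p = .pos ∨ p = .neg) (t : Row) :
    Iso (false :: false :: false :: t) (false :: t) [(0, .cap)] [(1, p), (0, p), (1, .cap)] := by
  rcases hp with rfl | rfl
  · -- insert (1,pos),(1,neg) then slide
    have c1 : Iso (false :: false :: false :: t) (false :: t) [(1, .pos), (1, .neg), (0, .cap)]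
        [(0, .cap)] := Iso.mk' [] [(0, .cap)] (.right _ _ .r2PosNeg) rfl rfl
    have c2 : Iso (false :: false :: false :: t) (false :: t) [(1, .pos), (1, .neg), (0, .cap)]
        [(1, .pos), (0, .pos), (1, .cap)] := Iso.mk' [(1, .pos)] [] .capSlideNeg rfl rfl
    exact c1.symm'.trans' c2
  · have c1 : Iso (false :: false :: false :: t) (false :: t) [(1, .neg), (1, .pos), (0, .cap)]
        [(0, .cap)] := Iso.mk' [] [(0, .cap)] (.right _ _ .r2NegPos) rfl rfl
    have c2 : Iso (false :: false :: false :: t) (false :: t) [(1, .neg), (1, .pos), (0, .cap)]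
        [(1, .neg), (0, .neg), (1, .cap)] := Iso.mk' [(1, .neg)] [] .capSlidePos rfl rfl
    exact c1.symm'.trans' c2

/-- a strand passing over or under a local minimum -/
theorem cupPass (p : Piece) (hp : p = .pos ∨ p = .neg) (t : Row) :
    Iso (false :: t) (false :: false :: false :: t) [(0, .cup), (1, p), (0, p)] [(1, .cup)] := by
  rcases hp with rfl | rfl
  · have c1 : Iso (false :: t) (false :: false :: false :: t) [(0, .cup), (1, .pos), (0, .pos)]
        [(1, .cup), (0, .neg), (0, .pos)] := Iso.mk' [] [(0, .pos)] .cupSlidePos rfl rfl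
    have c2 : Iso (false :: t) (false :: false :: false :: t) [(1, .cup), (0, .neg), (0, .pos)]
        [(1, .cup)] := Iso.mk' [(1, .cup)] [] .r2NegPos rfl rfl
    exact c1.trans' c2
  · have c1 : Iso (false :: t) (false :: false :: false :: t) [(0, .cup), (1, .neg), (0, .neg)]
        [(1, .cup), (0, .pos), (0, .neg)] := Iso.mk' [] [(0, .neg)] .cupSlideNeg rfl rfl
    have c2 : Iso (false :: t) (false :: false :: false :: t) [(1, .cup), (0, .pos), (0, .neg)]
        [(1, .cup)] := Iso.mk' [(1, .cup)] [] .r2PosNeg rfl rfl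
    exact c1.trans' c2

/-- the loop slides through a crossing in which its strand comes from the left -/
theorem loop_right (p : Piece) (hp : p = .pos ∨ p = .neg) (t : Row) :
    Iso (true :: false :: t) (false :: true :: t) (loop 0 ++ [(0, p)]) ([(0, p)] ++ loop 1) := by
  have hh : ∀ (U V : Word), True := fun _ _ => trivial
  -- Y = [(1,cup),(0,neg),(0,neg),(1,cap),(0,p)]
  have c1 : Iso (true :: false :: t) (false :: true :: t)
      [(1, .cup), (0, .neg), (0, .neg), (1, .cap), (0, p)]
      [(1, .cup), (0, .neg), (0, .neg), (2, p), (1, p), (2, .cap), (0, p)] := by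
    have := (capPass p hp t).up' true
    rcases hp with rfl | rfl <;>
    exact this.ctx (r0 := true :: false :: t) (U := [(1, .cup), (0, .neg), (0, .neg)])
      (V := [(0, _)]) rfl rfl
  have c2 : Iso (true :: false :: t) (false :: true :: t)
      [(1, .cup), (0, .neg), (0, .neg), (2, p), (1, p), (0, p), (2, .cap)]
      [(1, .cup), (0, .neg), (0, .neg), (2, p), (1, p), (2, .cap), (0, p)] := by
    rcases hp with rfl | rfl
    · exact Iso.mk' [(1, .cup), (0, .neg), (0, .neg), (2, .pos), (1, .pos)] []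
        (.exchange .pos .cap 0) rfl rfl
    · exact Iso.mk' [(1, .cup), (0, .neg), (0, .neg), (2, .neg), (1, .neg)] []
        (.exchange .neg .cap 0) rfl rfl
  have c3 : Iso (true :: false :: t) (false :: true :: t)
      [(1, .cup), (0, .neg), (0, .neg), (2, p), (1, p), (0, p), (2, .cap)]
      [(1, .cup), (0, .neg), (2, p), (0, .neg), (1, p), (0, p), (2, .cap)] := by
    rcases hp with rfl | rfl
    · exact Iso.mk' [(1, .cup), (0, .neg)] [(1, .pos), (0, .pos), (2, .cap)]
        (.exchange .neg .pos 0) rfl rfl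
    · exact Iso.mk' [(1, .cup), (0, .neg)] [(1, .neg), (0, .neg), (2, .cap)]
        (.exchange .neg .neg 0) rfl rfl
  have c4 : Iso (true :: false :: t) (false :: true :: t)
      [(1, .cup), (0, .neg), (2, p), (0, .neg), (1, p), (0, p), (2, .cap)]
      [(1, .cup), (2, p), (0, .neg), (0, .neg), (1, p), (0, p), (2, .cap)] := by
    rcases hp with rfl | rfl
    · exact Iso.mk' [(1, .cup)] [(0, .neg), (1, .pos), (0, .pos), (2, .cap)]
        (.exchange .neg .pos 0) rfl rfl
    · exact Iso.mk' [(1, .cup)] [(0, .neg), (1, .neg), (0, .neg), (2, .cap)]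
        (.exchange .neg .neg 0) rfl rfl
  have c5 : Iso (true :: false :: t) (false :: true :: t)
      [(1, .cup), (2, p), (0, .neg), (0, .neg), (1, p), (0, p), (2, .cap)]
      [(1, .cup), (2, p), (0, .neg), (1, p), (0, p), (1, .neg), (2, .cap)] := by
    have := braid p hp false true false (false :: t) (by simp) (by simp) (by simp)
    rcases hp with rfl | rfl <;>
    exact this.ctx (r0 := true :: false :: t) (U := [(1, .cup), (2, _), (0, .neg)])
      (V := [(2, .cap)]) rfl rfl
  have c6 : Iso (true :: false :: t) (false :: true :: t)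
      [(1, .cup), (2, p), (0, .neg), (1, p), (0, p), (1, .neg), (2, .cap)]
      [(1, .cup), (2, p), (1, p), (0, p), (1, .neg), (1, .neg), (2, .cap)] := by
    have := braid p hp true false false (false :: t) (by simp) (by simp) (by simp)
    rcases hp with rfl | rfl <;>
    exact this.ctx (r0 := true :: false :: t) (U := [(1, .cup), (2, _)])
      (V := [(1, .neg), (2, .cap)]) rfl rfl
  have c7 : Iso (true :: false :: t) (false :: true :: t)
      [(1, .cup), (2, p), (1, p), (0, p), (1, .neg), (1, .neg), (2, .cap)]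
      [(2, .cup), (0, p), (1, .neg), (1, .neg), (2, .cap)] := by
    have := (cupPass p hp t).up' true
    rcases hp with rfl | rfl <;>
    exact this.ctx (r0 := true :: false :: t) (U := [])
      (V := [(0, _), (1, .neg), (1, .neg), (2, .cap)]) rfl rfl
  have c8 : Iso (true :: false :: t) (false :: true :: t)
      [(0, p), (2, .cup), (1, .neg), (1, .neg), (2, .cap)]
      [(2, .cup), (0, p), (1, .neg), (1, .neg), (2, .cap)] := by
    rcases hp with rfl | rfl
    · exact Iso.mk' [] [(1, .neg), (1, .neg), (2, .cap)] (.exchange .pos .cup 0) rfl rfl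
    · exact Iso.mk' [] [(1, .neg), (1, .neg), (2, .cap)] (.exchange .neg .cup 0) rfl rfl
  exact c1.trans' (c2.symm'.trans' (c3.trans' (c4.trans' (c5.trans' (c6.trans'
    (c7.trans' c8.symm'))))))

/-- the loop slides through a crossing in which its strand comes from the right -/
theorem loop_left (p : Piece) (hp : p = .pos ∨ p = .neg) (t : Row) :
    Iso (false :: true :: t) (true :: false :: t) (loop 1 ++ [(0, p)]) ([(0, p)] ++ loop 0) := by
  rcases hp with rfl | rfl
  · have h1 := loop_right .neg (Or.inr rfl) t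
    have h2 : Iso (false :: true :: t) (true :: false :: t)
        ([(0, .pos)] ++ (loop 0 ++ [(0, .neg)]) ++ [(0, .pos)])
        ([(0, .pos)] ++ ([(0, .neg)] ++ loop 1) ++ [(0, .pos)]) := h1.ctx rfl rfl
    have c1 : Iso (false :: true :: t) (true :: false :: t)
        ([(0, .pos)] ++ (loop 0 ++ [(0, .neg)]) ++ [(0, .pos)]) ([(0, .pos)] ++ loop 0) :=
      Iso.mk' [(0, .pos), (1, .cup), (0, .neg), (0, .neg), (1, .cap)] [] .r2NegPos rfl rfl
    have c2 : Iso (false :: true :: t) (true :: false :: t)
        ([(0, .pos)] ++ ([(0, .neg)] ++ loop 1) ++ [(0, .pos)]) (loop 1 ++ [(0, .pos)]) :=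
      Iso.mk' [] [(2, .cup), (1, .neg), (1, .neg), (2, .cap), (0, .pos)] .r2PosNeg rfl rfl
    exact c2.symm'.trans' (h2.symm'.trans' c1)
  · have h1 := loop_right .pos (Or.inl rfl) t
    have h2 : Iso (false :: true :: t) (true :: false :: t)
        ([(0, .neg)] ++ (loop 0 ++ [(0, .pos)]) ++ [(0, .neg)])
        ([(0, .neg)] ++ ([(0, .pos)] ++ loop 1) ++ [(0, .neg)]) := h1.ctx rfl rfl
    have c1 : Iso (false :: true :: t) (true :: false :: t)
        ([(0, .neg)] ++ (loop 0 ++ [(0, .pos)]) ++ [(0, .neg)]) ([(0, .neg)] ++ loop 0) :=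
      Iso.mk' [(0, .neg), (1, .cup), (0, .neg), (0, .neg), (1, .cap)] [] .r2PosNeg rfl rfl
    have c2 : Iso (false :: true :: t) (true :: false :: t)
        ([(0, .neg)] ++ ([(0, .pos)] ++ loop 1) ++ [(0, .neg)]) (loop 1 ++ [(0, .neg)]) :=
      Iso.mk' [] [(2, .cup), (1, .neg), (1, .neg), (2, .cap), (0, .neg)] .r2NegPos rfl rfl
    exact c2.symm'.trans' (h2.symm'.trans' c1)

end Pool.Agent.R804.Ext
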