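import Pool.Agent.R804.Ext.Moves

set_option autoImplicit false
set_option linter.unusedSimpArgs false
set_option linter.unusedVariables false

namespace Pool.Agent.R804.Ext

open Finsupp

/-- admissible states -/
def St.ok : St → Prop
  | .o _ => True
  | .k n => 0 ≤ n

/-- degree of a state -/
def St.deg : St → ℤ
  | .o false => -1
  | .o true => 1
  | .k n => 2 * n

/-- the admissible states of the row `r` with total degree `d` -/
def S (r : Row) (d : ℤ) : Set (List St) :=
  {x | x.map St.ty = r ∧ (∀ s ∈ x, s.ok) ∧ (x.map St.deg).sum = d}

theorem deg_ge {x : List St} (h : ∀ s ∈ x, s.ok) : -(x.length : ℤ) ≤ (x.map St.deg).sum := by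
  induction x with
  | nil => simp
  | cons s x ih =>
    have h1 := ih fun t ht => h t (List.mem_cons_of_mem _ ht)
    have h2 := h s List.mem_cons_self
    rcases s with (_ | _) | n <;> simp [St.deg, St.ok] at h2 ⊢ <;> omega

theorem S_finite (r : Row) (d : ℤ) : (S r d).Finite := by
  induction r generalizing d with
  | nil =>
    apply (Set.finite_singleton ([] : List St)).subset
    rintro x ⟨h, -⟩
    simpa using h
  | cons b r ih =>
    cases b with
    | false =>
      apply (((ih (d + 1)).image (List.cons (St.o false))).union
        ((ih (d - 1)).image (List.cons (St.o true)))).subset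
      rintro x ⟨h1, h2, h3⟩
      rcases x with _ | ⟨s, x⟩
      · simp at h1
      · rcases s with (_ | _) | n
        · left
          refine ⟨x, ⟨?_, fun t ht => h2 t (List.mem_cons_of_mem _ ht), ?_⟩, rfl⟩
          · simpa [St.ty] using h1
          · simp [St.deg] at h3; omega
        · right
          refine ⟨x, ⟨?_, fun t ht => h2 t (List.mem_cons_of_mem _ ht), ?_⟩, rfl⟩
          · simpa [St.ty] using h1
          · simp [St.deg] at h3; omega
        · simp [St.ty] at h1
    | true =>
      have : (⋃ n ∈ Finset.range (d + r.length + 1).toNat,
          (List.cons (St.k n)) '' S r (d - 2 * n)).Finite :=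
        Set.Finite.biUnion (Finset.finite_toSet _) fun n _ => (ih _).image _
      apply this.subset
      rintro x ⟨h1, h2, h3⟩
      rcases x with _ | ⟨s, x⟩
      · simp at h1
      · rcases s with (_ | _) | n
        · simp [St.ty] at h1
        · simp [St.ty] at h1
        · have hn : 0 ≤ n := h2 (St.k n) List.mem_cons_self
          have hx : ∀ t ∈ x, t.ok := fun t ht => h2 t (List.mem_cons_of_mem _ ht)
          have hl : x.map St.ty = r := by simpa [St.ty] using h1
          have hlen : x.length = r.length := by rw [← hl, List.length_map]
          have h4 := deg_ge hx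
          have h5 : 2 * n + (x.map St.deg).sum = d := by simpa [St.deg] using h3
          obtain ⟨m, rfl⟩ := Int.eq_ofNat_of_zero_le hn
          simp only [Set.mem_iUnion, Set.mem_image]
          refine ⟨m, ?_, x, ⟨hl, hx, by omega⟩, rfl⟩
          simp only [Finset.mem_range]
          omega

section

variable {F : Type*} [Field F] {A T : F}

/-- vectors supported on the admissible states of the row `r` in degree `d` -/
noncomputable def V (F : Type*) [Field F] (r : Row) (d : ℤ) : Submodule F (List St →₀ F) :=
  supported F F (S r d)

theorem e_mem {r : Row} {d : ℤ} {x : List St} (h : x ∈ S r d) : (e x : List St →₀ F) ∈ V F r d :=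
  single_mem_supported F 1 h

/-- the finite set of admissible states -/
noncomputable def SF (r : Row) (d : ℤ) : Finset (List St) := (S_finite r d).toFinset

theorem mem_SF {r : Row} {d : ℤ} {x : List St} : x ∈ SF r d ↔ x ∈ S r d := by
  simp [SF]

theorem expand {r : Row} {d : ℤ} {v : List St →₀ F} (h : v ∈ V F r d) :
    v = ∑ y ∈ SF r d, v y • e y := by
  have hs : v.support ⊆ SF r d := by
    intro y hy
    rw [mem_SF]
    exact h hy
  conv_lhs => rw [← sum_single v]
  rw [Finsupp.sum]
  rw [Finset.sum_subset hs]
  · apply Finset.sum_congr rfl
    intro y _
    simp [e]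
  · intro y _ hy
    rw [notMem_support_iff.mp hy, single_zero]

theorem V_cons {r : Row} {d : ℤ} {s : St} (hs : s.ok) {v : List St →₀ F}
    (hv : v ∈ V F r (d - s.deg)) : consL s v ∈ V F (s.ty :: r) d := by
  rw [expand hv, map_sum]
  apply Submodule.sum_mem
  intro y hy
  rw [map_smul, consL_e]
  apply Submodule.smul_mem
  apply e_mem
  rw [mem_SF] at hy
  obtain ⟨h1, h2, h3⟩ := hy
  refine ⟨by simp [h1], ?_, by simp [h3]⟩
  intro t ht
  rcases List.mem_cons.mp ht with rfl | ht
  · exact hs
  · exact h2 t ht

theorem beta_zero : beta A T 0 = 0 := by simp [beta]

theorem S_intro {r : Row} {d : ℤ} {x : List St} (h1 : x.map St.ty = r) (h2 : ∀ s ∈ x, s.ok)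
    (h3 : (x.map St.deg).sum = d) : x ∈ S r d := ⟨h1, h2, h3⟩

theorem base_mem {p : Piece} {r r' : Row} (h : first p r = some r') {d : ℤ} {x : List St}
    (hx : x ∈ S r d) : base A T p x ∈ V F r' d := by
  obtain ⟨h1, h2, h3⟩ := hx
  rcases p with _ | _ | _ | _
  · -- cup
    obtain rfl : false :: false :: r = r' := by simpa [first] using h
    apply Submodule.add_mem <;> apply Submodule.smul_mem <;> apply e_mem <;>
      refine ⟨by simp [St.ty, h1], by simpa [St.ok] using h2, by simp [St.deg, h3]⟩
  · -- cap
    rcases x with _ | ⟨s, _ | ⟨t, x⟩⟩
    · exact Submodule.zero_mem _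
    · exact Submodule.zero_mem _
    · rcases s with (_ | _) | n <;> rcases t with (_ | _) | m
      case o.false.o.true =>
        subst h1
        obtain rfl : x.map St.ty = r' := by simpa [first, St.ty] using h
        apply Submodule.smul_mem; apply e_mem
        exact ⟨rfl, fun s hs => h2 s (by simp [hs]), by simpa [St.deg] using h3⟩
      case o.true.o.false =>
        subst h1
        obtain rfl : x.map St.ty = r' := by simpa [first, St.ty] using h
        apply Submodule.smul_mem; apply e_mem
        exact ⟨rfl, fun s hs => h2 s (by simp [hs]), by simpa [St.deg] using h3⟩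
      all_goals exact Submodule.zero_mem _
  · -- pos
    rcases x with _ | ⟨s, _ | ⟨t, x⟩⟩
    · exact Submodule.zero_mem _
    · exact Submodule.zero_mem _
    · rcases s with (_ | _) | n <;> rcases t with (_ | _) | m <;> subst h1 <;>
        simp only [first, St.ty, List.map_cons, Option.some.injEq, reduceCtorEq] at h
      all_goals subst h
      all_goals simp only [List.mem_cons, forall_eq_or_imp, St.ok, true_and, List.map_cons,
        St.deg, List.sum_cons] at h2 h3
      case o.false.o.false =>
        apply Submodule.smul_mem; apply e_mem
        exact S_intro (by simp [St.ty]) (by simpa [St.ok] using h2) (by simp [St.deg]; omega)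
      case o.false.o.true =>
        apply Submodule.smul_mem; apply e_mem
        exact S_intro (by simp [St.ty]) (by simpa [St.ok] using h2) (by simp [St.deg]; omega)
      case o.true.o.true =>
        apply Submodule.smul_mem; apply e_mem
        exact S_intro (by simp [St.ty]) (by simpa [St.ok] using h2) (by simp [St.deg]; omega)
      case o.true.o.false =>
        apply Submodule.add_mem <;> apply Submodule.smul_mem <;> apply e_mem <;>
        exact S_intro (by simp [St.ty]) (by simpa [St.ok] using h2) (by simp [St.deg]; omega)
      case o.false.k =>
        apply Submodule.smul_mem; apply e_mem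
        exact S_intro (by simp [St.ty]) (by simpa [St.ok] using h2) (by simp [St.deg]; omega)
      case o.true.k =>
        apply Submodule.add_mem <;> apply Submodule.smul_mem <;> apply e_mem
        · exact S_intro (by simp [St.ty]) (by simpa [St.ok] using h2) (by simp [St.deg]; omega)
        · refine S_intro (by simp [St.ty]) ?_ (by simp [St.deg]; omega)
          simp only [List.mem_cons, forall_eq_or_imp, St.ok, true_and]
          exact ⟨by omega, h2.2⟩
      case k.o.false =>
        apply Submodule.add_mem
        · apply Submodule.smul_mem; apply e_mem
          exact S_intro (by simp [St.ty]) (by simpa [St.ok] using h2) (by simp [St.deg]; omega)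
        · rcases eq_or_ne n 0 with rfl | hn
          · rw [beta_zero, zero_smul]; exact Submodule.zero_mem _
          · apply Submodule.smul_mem; apply e_mem
            refine S_intro (by simp [St.ty]) ?_ (by simp [St.deg]; omega)
            simp only [List.mem_cons, forall_eq_or_imp, St.ok, true_and]
            exact ⟨by omega, h2.2⟩
      case k.o.true =>
        apply Submodule.smul_mem; apply e_mem
        exact S_intro (by simp [St.ty]) (by simpa [St.ok] using h2) (by simp [St.deg]; omega)
  · -- neg
    rcases x with _ | ⟨s, _ | ⟨t, x⟩⟩
    · exact Submodule.zero_mem _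
    · exact Submodule.zero_mem _
    · rcases s with (_ | _) | n <;> rcases t with (_ | _) | m <;> subst h1 <;>
        simp only [first, St.ty, List.map_cons, Option.some.injEq, reduceCtorEq] at h
      all_goals subst h
      all_goals simp only [List.mem_cons, forall_eq_or_imp, St.ok, true_and, List.map_cons,
        St.deg, List.sum_cons] at h2 h3
      case o.false.o.false =>
        apply Submodule.smul_mem; apply e_mem
        exact S_intro (by simp [St.ty]) (by simpa [St.ok] using h2) (by simp [St.deg]; omega)
      case o.true.o.false =>
        apply Submodule.smul_mem; apply e_mem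
        exact S_intro (by simp [St.ty]) (by simpa [St.ok] using h2) (by simp [St.deg]; omega)
      case o.true.o.true =>
        apply Submodule.smul_mem; apply e_mem
        exact S_intro (by simp [St.ty]) (by simpa [St.ok] using h2) (by simp [St.deg]; omega)
      case o.false.o.true =>
        apply Submodule.add_mem <;> apply Submodule.smul_mem <;> apply e_mem <;>
        exact S_intro (by simp [St.ty]) (by simpa [St.ok] using h2) (by simp [St.deg]; omega)
      case o.true.k =>
        apply Submodule.smul_mem; apply e_mem
        exact S_intro (by simp [St.ty]) (by simpa [St.ok] using h2) (by simp [St.deg]; omega)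
      case o.false.k =>
        apply Submodule.add_mem
        · apply Submodule.smul_mem; apply e_mem
          exact S_intro (by simp [St.ty]) (by simpa [St.ok] using h2) (by simp [St.deg]; omega)
        · rcases eq_or_ne m 0 with rfl | hn
          · rw [beta_zero, mul_zero, neg_zero, zero_smul]; exact Submodule.zero_mem _
          · apply Submodule.smul_mem; apply e_mem
            refine S_intro (by simp [St.ty]) ?_ (by simp [St.deg]; omega)
            simp only [List.mem_cons, forall_eq_or_imp, St.ok, true_and]
            exact ⟨by omega, h2.2⟩
      case k.o.true =>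
        apply Submodule.add_mem <;> apply Submodule.smul_mem <;> apply e_mem
        · exact S_intro (by simp [St.ty]) (by simpa [St.ok] using h2) (by simp [St.deg]; omega)
        · refine S_intro (by simp [St.ty]) ?_ (by simp [St.deg]; omega)
          simp only [List.mem_cons, forall_eq_or_imp, St.ok, true_and]
          exact ⟨by omega, h2.2⟩
      case k.o.false =>
        apply Submodule.smul_mem; apply e_mem
        exact S_intro (by simp [St.ty]) (by simpa [St.ok] using h2) (by simp [St.deg]; omega)

end

end Pool.Agent.R804.Ext
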